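import Pool.Agent.Run7.h636.LT.Iface
import Pool.Agent.Helper993.Chain

/-!
# Project LT, piece MOM: determinants from moments
-/

set_option autoImplicit false

open scoped InnerProductSpace Topology CompactlySupported

noncomputable section

namespace Run7.h308.LT.MOM

open Module Pool.Agent.N496.LT Pool.Agent.TH630.Tor Pool.Agent.Helper993.FK Pool.Agent.Helper993.Delta
open Run7.h636.LT MeasureTheory Polynomial

variable {G : Type} [Group G]

theorem toQ_one {r : ℕ} : (1 : Matrix (Fin r) (Fin r) (MonoidAlgebra ℤ G)).map toQ = 1 :=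
  Matrix.map_one _ (map_zero (MonoidAlgebra.mapRingHom G (Int.castRingHom ℚ)))
    (map_one (MonoidAlgebra.mapRingHom G (Int.castRingHom ℚ)))

theorem toQ_pow {r : ℕ} (A : Matrix (Fin r) (Fin r) (MonoidAlgebra ℤ G)) (k : ℕ) :
    (A ^ k).map toQ = (A.map toQ) ^ k := by
  induction k with
  | zero => rw [pow_zero, pow_zero, toQ_one]
  | succ k ih => rw [pow_succ, pow_succ, toQ_mul, ih]

/-- the square -/
def sq {r : ℕ} (A : Matrix (Fin r) (Fin r) (MonoidAlgebra ℤ G)) :
    Matrix (Fin r) (Fin r) (MonoidAlgebra ℚ G) := (A * A).map toQ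

theorem specMeas_sq {r : ℕ} (A : Matrix (Fin r) (Fin r) (MonoidAlgebra ℤ G))
    (hA : 0 ≤ rMul (A.map toQ)) :
    specMeas unitVec (rMul (A.map toQ)) = spectralMeasure unitVec (rMul (sq A)) := by
  unfold specMeas sq
  have h1 : ContinuousLinearMap.adjoint (rMul (A.map toQ)) = rMul (A.map toQ) :=
    (IsSelfAdjoint.of_nonneg hA)
  rw [h1, toQ_mul, rMul_mul]

theorem sq_nonneg' {r : ℕ} (A : Matrix (Fin r) (Fin r) (MonoidAlgebra ℤ G))
    (hA : 0 ≤ rMul (A.map toQ)) : 0 ≤ rMul (sq A) := by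
  have h1 : ContinuousLinearMap.adjoint (rMul (A.map toQ)) = rMul (A.map toQ) :=
    (IsSelfAdjoint.of_nonneg hA)
  have h2 := adjoint_comp_nonneg (rMul (A.map toQ))
  rw [h1] at h2
  unfold sq
  rw [toQ_mul, rMul_mul]
  exact h2

theorem trc_sq {r : ℕ} (A : Matrix (Fin r) (Fin r) (MonoidAlgebra ℤ G)) (k : ℕ) :
    trc (sq A ^ k) = ∑ a, ((((A ^ (2 * k)) a a).coeff 1 : ℤ) : ℝ) := by
  unfold trc
  apply Finset.sum_congr rfl
  intro a _
  unfold sq
  rw [← toQ_pow, ← pow_two, ← pow_mul, Matrix.map_apply, toQ_coeff]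
  push_cast
  rfl

section main

variable {m : ℕ} {r : Fin m → ℕ} (A : ∀ n, Matrix (Fin (r n)) (Fin (r n)) (MonoidAlgebra ℤ G))
  (c : Fin m → ℝ)

theorem poly_zero (hA : ∀ n, 0 ≤ rMul ((A n).map toQ))
    (hm : ∀ k : ℕ, ∑ n, c n * ∑ a, (((((A n) ^ k) a a).coeff 1 : ℤ) : ℝ) = 0) (p : ℝ[X]) :
    ∑ n, c n * traceVal unitVec (rMul (sq (A n))) (fun x => p.eval x) = 0 := by
  have h1 : ∀ n, c n * traceVal unitVec (rMul (sq (A n))) (fun x => p.eval x)
      = ∑ k ∈ Finset.range (p.natDegree + 1), p.coeff k *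
        (c n * ∑ a, (((((A n) ^ (2 * k)) a a).coeff 1 : ℤ) : ℝ)) := by
    intro n
    rw [traceVal_poly _ (sq_nonneg' (A n) (hA n)), Finset.mul_sum]
    apply Finset.sum_congr rfl
    intro k _
    rw [trc_sq]
    ring
  simp_rw [h1]
  rw [Finset.sum_comm]
  apply Finset.sum_eq_zero
  intro k _
  rw [← Finset.mul_sum, hm (2 * k), mul_zero]

theorem cont_zero (hA : ∀ n, 0 ≤ rMul ((A n).map toQ))
    (hm : ∀ k : ℕ, ∑ n, c n * ∑ a, (((((A n) ^ k) a a).coeff 1 : ℤ) : ℝ) = 0)
    {h : ℝ → ℝ} (hh : Continuous h) :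
    ∑ n, c n * traceVal unitVec (rMul (sq (A n))) h = 0 := by
  set K : ℝ := ∑ n, ‖rMul (sq (A n))‖ with hK
  have hKn : ∀ n, ‖rMul (sq (A n))‖ ≤ K := fun n =>
    Finset.single_le_sum (f := fun n => ‖rMul (sq (A n))‖) (fun i _ => norm_nonneg _)
      (Finset.mem_univ n)
  set B : ℝ := ∑ n, |c n| * r n with hB
  have hB0 : 0 ≤ B := Finset.sum_nonneg fun n _ => by positivity
  have key : ∀ ε : ℝ, 0 < ε → |∑ n, c n * traceVal unitVec (rMul (sq (A n))) h| ≤ B * ε := by
    intro ε hε
    obtain ⟨p, hp⟩ := exists_polynomial_near_of_continuousOn 0 K h hh.continuousOn ε hε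
    have h0 := poly_zero A c hA hm p
    have h1 : ∑ n, c n * traceVal unitVec (rMul (sq (A n))) h
        = ∑ n, c n * (traceVal unitVec (rMul (sq (A n))) h
          - traceVal unitVec (rMul (sq (A n))) (fun x => p.eval x)) := by
      simp_rw [mul_sub]
      rw [Finset.sum_sub_distrib, h0, sub_zero]
    rw [h1, hB, Finset.sum_mul]
    refine (Finset.abs_sum_le_sum_abs _ _).trans (Finset.sum_le_sum fun n _ => ?_)
    rw [abs_mul, mul_assoc]
    apply mul_le_mul_of_nonneg_left _ (abs_nonneg _)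
    exact traceVal_near unitVec (fun j => (norm_unitVec j).le) _ (sq_nonneg' (A n) (hA n))
      (hKn n) hh p.continuous hε.le (fun x hx => by
        rw [abs_sub_comm]
        exact (hp x hx).le)
  have h2 : |∑ n, c n * traceVal unitVec (rMul (sq (A n))) h| ≤ 0 := by
    apply le_of_forall_pos_le_add
    intro ε hε
    have h3 := key (ε / (B + 1)) (by positivity)
    refine h3.trans ?_
    rw [zero_add, mul_div_assoc', div_le_iff₀ (by positivity)]
    nlinarith
  exact abs_eq_zero.1 (le_antisymm h2 (abs_nonneg _))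

/-- the spectral measures -/
def nu (n : Fin m) : Measure ℝ := spectralMeasure unitVec (rMul (sq (A n)))

instance (n : Fin m) : (nu A n).Regular := by
  unfold nu spectralMeasure
  infer_instance

/-- the positive part -/
def pos (c : Fin m → ℝ) : Measure ℝ := ∑ n, ENNReal.ofReal (c n) • nu A n

instance : (pos A c).Regular := by
  have h1 : IsFiniteMeasureOnCompacts (pos A c) := by
    refine ⟨fun K hK => ?_⟩
    unfold pos
    rw [Measure.finsetSum_apply]
    apply ENNReal.sum_lt_top.mpr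
    intro n _
    rw [Measure.smul_apply, smul_eq_mul]
    exact ENNReal.mul_lt_top ENNReal.ofReal_lt_top hK.measure_lt_top
  have h2 : IsLocallyFiniteMeasure (pos A c) := isLocallyFiniteMeasure_of_isFiniteMeasureOnCompacts
  infer_instance

theorem integral_pos {f : ℝ → ℝ} (hf : ∀ n, Integrable f (nu A n)) :
    ∫ x, f x ∂(pos A c) = ∑ n, max (c n) 0 * ∫ x, f x ∂(nu A n) := by
  unfold pos
  rw [integral_finsetSum_measure (fun n _ => (hf n).smul_measure ENNReal.ofReal_ne_top)]
  apply Finset.sum_congr rfl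
  intro n _
  rw [integral_smul_measure, ENNReal.toReal_ofReal', smul_eq_mul]

theorem max_sub (x : ℝ) : max x 0 - max (-x) 0 = x := by
  rcases le_total x 0 with h | h
  · rw [max_eq_right h, max_eq_left (by linarith)]; ring
  · rw [max_eq_left h, max_eq_right (by linarith)]; ring

theorem pos_eq (hA : ∀ n, 0 ≤ rMul ((A n).map toQ))
    (hm : ∀ k : ℕ, ∑ n, c n * ∑ a, (((((A n) ^ k) a a).coeff 1 : ℤ) : ℝ) = 0) :
    pos A c = pos A (fun n => -c n) := by
  apply Measure.ext_of_integral_eq_on_compactlySupported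
  intro f
  have hf : ∀ n, Integrable (f : ℝ → ℝ) (nu A n) := fun n =>
    f.continuous.integrable_of_hasCompactSupport f.hasCompactSupport
  rw [integral_pos A c hf, integral_pos A _ hf, ← sub_eq_zero, ← Finset.sum_sub_distrib]
  refine Eq.trans (Finset.sum_congr rfl fun n _ => ?_) (cont_zero A c hA hm f.continuous)
  rw [← sub_mul, max_sub]
  congr 1
  exact integral_spectralMeasure unitVec (rMul (sq (A n))) f

end main

theorem main : S_MOM := by
  intro G _ m r A c hA hdet hm
  have h0 : ∀ n, specMeas unitVec (rMul ((A n).map toQ)) = nu A n := fun n =>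
    specMeas_sq (A n) (hA n)
  have h1 : ∀ n, IntegrableOn Real.log (Set.Ioi 0) (nu A n) := by
    intro n
    by_contra hcon
    have h2 := hdet n
    unfold fkDet detOf at h2
    rw [h0, if_neg hcon] at h2
    exact lt_irrefl _ h2
  have h2 : ∀ n, Real.log (fkDet (rMul ((A n).map toQ)))
      = 1 / 2 * ∫ x, (Set.Ioi (0 : ℝ)).indicator Real.log x ∂(nu A n) := by
    intro n
    unfold fkDet detOf
    rw [h0, if_pos (h1 n), Real.log_exp, integral_indicator measurableSet_Ioi]
  have h3 : ∀ n, Integrable ((Set.Ioi (0 : ℝ)).indicator Real.log) (nu A n) := fun n =>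
    (h1 n).integrable_indicator measurableSet_Ioi
  have h4 := congrArg (fun μ => ∫ x, (Set.Ioi (0 : ℝ)).indicator Real.log x ∂μ) (pos_eq A c hA hm)
  rw [integral_pos A c h3, integral_pos A _ h3, ← sub_eq_zero, ← Finset.sum_sub_distrib] at h4
  simp_rw [← sub_mul, max_sub] at h4
  simp_rw [h2]
  have h5 : ∀ n, c n * (1 / 2 * ∫ x, (Set.Ioi (0 : ℝ)).indicator Real.log x ∂(nu A n))
      = 1 / 2 * (c n * ∫ x, (Set.Ioi (0 : ℝ)).indicator Real.log x ∂(nu A n)) := fun n => by ring
  simp_rw [h5]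
  rw [← Finset.mul_sum, h4, mul_zero]

end Run7.h308.LT.MOM
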