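import Pool.Agent.Run7.h636.LT.Iface

/-!
# Project LT, piece P5I: harmonic chains of products
-/

set_option autoImplicit false

open scoped InnerProductSpace Matrix

noncomputable section

namespace Run7.h308.LT.P5I

open Module Pool.Agent.N496.LT Pool.Agent.TH630.Tor Pool.Agent.Helper993.FK Pool.Agent.Helper993.Delta
open Run7.h636.LT

/-! ### evaluation -/

section ev
variable {G H : Type} [Group G] [Group H]

/-- `∑ g, a(g) F(g)` -/
def ev (a : MonoidAlgebra ℤ G) (F : G → ℂ) : ℂ := a.coeff.sum fun g c => (c : ℂ) * F g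

theorem ev_zero (F : G → ℂ) : ev (0 : MonoidAlgebra ℤ G) F = 0 := by simp [ev]

omit [Group G] in
theorem ev_fun_zero (a : MonoidAlgebra ℤ G) (F : G → ℂ) (hF : ∀ g, F g = 0) : ev a F = 0 := by
  unfold ev Finsupp.sum
  exact Finset.sum_eq_zero fun g _ => by simp [hF]

theorem ev_map (f : G →* H) (a : MonoidAlgebra ℤ G) (F : H → ℂ) :
    ev (MonoidAlgebra.mapDomainRingHom ℤ f a) F = ev a (fun g => F (f g)) := by
  unfold ev
  rw [MonoidAlgebra.mapDomainRingHom_apply, MonoidAlgebra.mapDomain, MonoidAlgebra.coeff_ofCoeff,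
    Finsupp.sum_mapDomain_index]
  · intro b; simp
  · intro b c d; push_cast; ring

variable {ι κ : Type} [Fintype ι]

/-- right multiplication by a matrix over the group ring on functions -/
def act (A : Matrix ι κ (MonoidAlgebra ℤ G)) (f : ι → G → ℂ) (j : κ) (h : G) : ℂ :=
  ∑ i, ev (A i j) fun g => f i (h * g⁻¹)

/-- square summable functions -/
def Sq {ι G : Type} (f : ι → G → ℂ) : Prop :=
  Summable fun p : ι × G => ‖f p.1 p.2‖ ^ ((2 : ENNReal).toReal)

/-- injectivity on the square summable functions -/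
def Inj (A : Matrix ι κ (MonoidAlgebra ℤ G)) : Prop :=
  ∀ f : ι → G → ℂ, Sq f → (∀ j h, act A f j h = 0) → ∀ i g, f i g = 0

theorem Sq.comp {ι κ G G' : Type} {f : ι → G → ℂ} (hf : Sq f) (φ : κ × G' → ι × G)
    (hφ : Function.Injective φ) (f' : κ → G' → ℂ) (h : ∀ p, f' p.1 p.2 = f (φ p).1 (φ p).2) :
    Sq f' := by
  unfold Sq at hf ⊢
  refine (hf.comp_injective hφ).congr fun p => ?_
  rw [h, Function.comp_apply]

theorem rMul_coord {r s : ℕ} (A : Matrix (Fin r) (Fin s) (MonoidAlgebra ℤ G)) (v : L2Pow G r)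
    (j : Fin s) (h : G) :
    coord (rMul (A.map toQ) v) j h = act A (fun i g => coord v i g) j h := by
  rw [rMul_apply]
  unfold act ev
  apply Finset.sum_congr rfl
  intro i _
  rw [Matrix.map_apply]
  unfold Finsupp.sum
  have hs : (toQ (A i j)).coeff.support = (A i j).coeff.support := by
    ext g
    rw [Finsupp.mem_support_iff, Finsupp.mem_support_iff, toQ_coeff]
    simp
  rw [hs]
  apply Finset.sum_congr rfl
  intro g _
  rw [toQ_coeff]
  push_cast
  rfl

omit [Group G] in
theorem exists_L2 {r : ℕ} (f : Fin r → G → ℂ) (hf : Sq f) :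
    ∃ v : L2Pow G r, ∀ i g, coord v i g = f i g := by
  have h2 : Memℓp (fun p : Fin r × G => f p.1 p.2) 2 := memℓp_gen hf
  exact ⟨(⟨_, h2⟩ : lp (fun _ : Fin r × G => ℂ) 2), fun j h => rfl⟩

theorem inj_iff {r s : ℕ} (A : Matrix (Fin r) (Fin s) (MonoidAlgebra ℤ G)) :
    (∀ v, rMul (A.map toQ) v = 0 → v = 0) ↔ Inj A := by
  constructor
  · intro h f hf h0 i g
    obtain ⟨v, hv⟩ := exists_L2 f hf
    have h1 : v = 0 := by
      apply h
      apply coord_ext
      intro j k
      rw [coord_zero, rMul_coord]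
      have h2 : (fun i g => coord v i g) = f := by
        funext i g
        exact hv i g
      rw [h2]
      exact h0 j k
    rw [← hv, h1, coord_zero]
  · intro h v hv
    apply coord_ext
    intro i g
    rw [coord_zero]
    apply h (fun i g => coord v i g) (coord_summable v)
    intro j k
    rw [← rMul_coord, hv, coord_zero]

end ev

/-! ### the complex in all the degrees -/

section one
variable {G : Type} [Group G] (C : GCx G)

/-- the cells of degree `n` -/
def eq (n : ℕ) : Fin (C.toFree.rank n) ≃ {i : C.ι // C.deg i = n} :=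
  (Fintype.equivFin {i : C.ι // C.deg i = n}).symm

theorem lap_deg (i j : C.ι) (h : C.deg i ≠ C.deg j) : lap C i j = 0 := by
  unfold lap
  rw [Matrix.add_apply, Matrix.mul_apply, Matrix.mul_apply, Finset.sum_eq_zero, Finset.sum_eq_zero,
    add_zero]
  · intro k _
    unfold adj
    rw [Matrix.of_apply]
    by_cases h1 : C.D k i = 0
    · rw [h1, MonoidAlgebra.mapDomain_zero, zero_mul]
    · by_cases h2 : C.D k j = 0
      · rw [h2, mul_zero]
      · exfalso
        have := C.D_deg _ _ h1
        have := C.D_deg _ _ h2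
        omega
  · intro k _
    unfold adj
    rw [Matrix.of_apply]
    by_cases h1 : C.D i k = 0
    · rw [h1, zero_mul]
    · by_cases h2 : C.D j k = 0
      · rw [h2, MonoidAlgebra.mapDomain_zero, mul_zero]
      · exfalso
        have := C.D_deg _ _ h1
        have := C.D_deg _ _ h2
        omega

theorem adjD (n : ℕ) (a b : Fin (C.toFree.rank n)) :
    (adjZ (C.toFree.d n) * C.toFree.d n) a b = (adj C.D * C.D) (eq C n a).1 (eq C n b).1 := by
  rw [Matrix.mul_apply, Matrix.mul_apply]
  have h := sum_deg C.deg (n + 1)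
    (fun k => adj C.D (eq C n a).1 k * C.D k (eq C n b).1) (fun k hk => by
      by_cases h0 : C.D k (eq C n b).1 = 0
      · rw [h0, mul_zero]
      · exfalso
        apply hk
        have := C.D_deg _ _ h0
        rw [(eq C n b).2] at this
        exact this)
  rw [← (eq C (n + 1)).sum_comp] at h
  exact h

theorem Dadj (n : ℕ) (a b : Fin (C.toFree.rank (n + 1))) :
    (C.toFree.d n * adjZ (C.toFree.d n)) a b
      = (C.D * adj C.D) (eq C (n + 1) a).1 (eq C (n + 1) b).1 := by
  rw [Matrix.mul_apply, Matrix.mul_apply]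
  have h := sum_deg C.deg n
    (fun k => C.D (eq C (n + 1) a).1 k * adj C.D k (eq C (n + 1) b).1) (fun k hk => by
      by_cases h0 : C.D (eq C (n + 1) a).1 k = 0
      · rw [h0, zero_mul]
      · exfalso
        apply hk
        have := C.D_deg _ _ h0
        rw [(eq C (n + 1) a).2] at this
        omega)
  rw [← (eq C n).sum_comp] at h
  exact h

theorem lapM_apply (n : ℕ) (a b : Fin (C.toFree.rank n)) :
    C.toFree.lapM n a b = lap C (eq C n a).1 (eq C n b).1 := by
  unfold lap
  rw [Matrix.add_apply]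
  cases n with
  | zero =>
    change (adjZ (C.toFree.d 0) * C.toFree.d 0) a b = _
    rw [adjD]
    have h : (C.D * adj C.D) (eq C 0 a).1 (eq C 0 b).1 = 0 := by
      rw [Matrix.mul_apply]
      apply Finset.sum_eq_zero
      intro k _
      by_cases h0 : C.D (eq C 0 a).1 k = 0
      · rw [h0, zero_mul]
      · exfalso
        have := C.D_deg _ _ h0
        rw [(eq C 0 a).2] at this
        omega
    rw [h, zero_add]
  | succ n =>
    change (adjZ (C.toFree.d (n + 1)) * C.toFree.d (n + 1) +
      C.toFree.d n * adjZ (C.toFree.d n)) a b = _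
    rw [Matrix.add_apply, adjD, Dadj, add_comm]

theorem act_block (n : ℕ) (f : C.ι → G → ℂ) (b : Fin (C.toFree.rank n)) (h : G) :
    act (C.toFree.lapM n) (fun a g => f (eq C n a).1 g) b h = act (lap C) f (eq C n b).1 h := by
  unfold act
  simp_rw [lapM_apply]
  rw [(eq C n).sum_comp (fun i : {i : C.ι // C.deg i = n} =>
    ev (lap C i.1 (eq C n b).1) fun g => f i.1 (h * g⁻¹))]
  apply sum_deg C.deg n (fun i => ev (lap C i (eq C n b).1) fun g => f i (h * g⁻¹))
  intro k hk
  rw [lap_deg C k _ (by rw [(eq C n b).2]; exact hk), ev_zero]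

theorem inj_lap (h : ∀ n, Inj (C.toFree.lapM n)) : Inj (lap C) := by
  intro f hf h0 i g
  have h1 : Sq (fun a g => f (eq C (C.deg i) a).1 g) := by
    refine hf.comp (fun p : Fin (C.toFree.rank (C.deg i)) × G =>
        ((((eq C (C.deg i)) p.1).1, p.2) : C.ι × G)) ?_ _ (fun p => rfl)
    rintro ⟨a, x⟩ ⟨b, y⟩ hab
    rw [Prod.mk.injEq] at hab
    obtain ⟨h4, h5⟩ := hab
    rw [Prod.mk.injEq]
    exact ⟨(eq C (C.deg i)).injective (Subtype.ext h4), h5⟩
  have h2 := h (C.deg i) _ h1 (fun b x => by rw [act_block]; exact h0 _ _)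
    ((eq C (C.deg i)).symm ⟨i, rfl⟩) g
  simpa using h2

theorem inj_block (h : Inj (lap C)) (n : ℕ) : Inj (C.toFree.lapM n) := by
  classical
  intro f hf h0
  set F : C.ι → G → ℂ := fun i g => if hi : C.deg i = n then f ((eq C n).symm ⟨i, hi⟩) g else 0
    with hF
  have hFe : ∀ a g, F (eq C n a).1 g = f a g := by
    intro a g
    rw [hF]
    simp only
    rw [dif_pos (eq C n a).2]
    simp
  have hS : Sq F := by
    unfold Sq at hf ⊢
    have h3 : Function.Injective (fun p : Fin (C.toFree.rank n) × G =>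
        ((((eq C n) p.1).1, p.2) : C.ι × G)) := by
      rintro ⟨a, x⟩ ⟨b, y⟩ hab
      rw [Prod.mk.injEq] at hab
      obtain ⟨h4, h5⟩ := hab
      rw [Prod.mk.injEq]
      exact ⟨(eq C n).injective (Subtype.ext h4), h5⟩
    rw [← h3.summable_iff]
    · refine hf.congr fun p => ?_
      simp only [Function.comp_apply]
      rw [hFe]
    · rintro ⟨i, g⟩ hp
      have hi : C.deg i ≠ n := by
        intro hi
        apply hp
        refine ⟨((eq C n).symm ⟨i, hi⟩, g), ?_⟩
        simp
      rw [hF]
      simp [hi]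
  have hz : ∀ j x, act (lap C) F j x = 0 := by
    intro j x
    by_cases hj : C.deg j = n
    · have h1 := act_block C n F ((eq C n).symm ⟨j, hj⟩) x
      rw [show (fun a g => F (eq C n a).1 g) = f from funext fun a => funext fun g => hFe a g,
        h0] at h1
      rw [h1]
      simp
    · unfold act
      apply Finset.sum_eq_zero
      intro i _
      by_cases hi : C.deg i = n
      · rw [lap_deg C i j (by rw [hi]; exact fun h => hj h.symm), ev_zero]
      · apply ev_fun_zero
        intro g
        rw [hF]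
        simp [hi]
  intro a g
  rw [← hFe]
  exact h F hS hz _ _

end one

/-! ### products -/

section two
variable {G H : Type} [Group G] [Group H] (C : GCx G) (E : GCx H)

/-- the involution -/
def iv {K : Type} [Group K] (a : MonoidAlgebra ℤ K) : MonoidAlgebra ℤ K :=
  MonoidAlgebra.mapDomain (fun g : K => g⁻¹) a

theorem iv_zero {K : Type} [Group K] : iv (0 : MonoidAlgebra ℤ K) = 0 := MonoidAlgebra.mapDomain_zero _

theorem iv_add {K : Type} [Group K] (a b : MonoidAlgebra ℤ K) : iv (a + b) = iv a + iv b :=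
  MonoidAlgebra.mapDomain_add _ _ _

theorem iv_neg {K : Type} [Group K] (a : MonoidAlgebra ℤ K) : iv (-a) = -iv a := by
  have h := iv_add a (-a)
  rw [add_neg_cancel, iv_zero] at h
  exact (neg_eq_of_add_eq_zero_right h.symm).symm

theorem iv_sign {K : Type} [Group K] (n : ℕ) (a : MonoidAlgebra ℤ K) :
    iv ((-1) ^ n * a) = (-1) ^ n * iv a := by
  rcases Nat.even_or_odd n with h | h
  · rw [h.neg_one_pow, one_mul, one_mul]
  · rw [h.neg_one_pow, neg_one_mul, neg_one_mul, iv_neg]

theorem iv_map {K L : Type} [Group K] [Group L] (f : K →* L) (a : MonoidAlgebra ℤ K) :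
    iv (MonoidAlgebra.mapDomainRingHom ℤ f a) = MonoidAlgebra.mapDomainRingHom ℤ f (iv a) := by
  simp only [iv, MonoidAlgebra.mapDomainRingHom_apply, MonoidAlgebra.mapDomain,
    MonoidAlgebra.coeff_ofCoeff, ← Finsupp.mapDomain_comp]
  congr 2
  ext g
  simp

theorem adj_apply {K I : Type} [Group K] (A : Matrix I I (MonoidAlgebra ℤ K)) (i j : I) :
    adj A i j = iv (A j i) := rfl

theorem inl_inr_comm (a : MonoidAlgebra ℤ G) (b : MonoidAlgebra ℤ H) :
    MonoidAlgebra.mapDomainRingHom ℤ (MonoidHom.inl G H) a *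
      MonoidAlgebra.mapDomainRingHom ℤ (MonoidHom.inr G H) b =
    MonoidAlgebra.mapDomainRingHom ℤ (MonoidHom.inr G H) b *
      MonoidAlgebra.mapDomainRingHom ℤ (MonoidHom.inl G H) a := by
  induction a using MonoidAlgebra.induction_linear with
  | zero => simp
  | add a a' h1 h2 => rw [map_add, add_mul, mul_add, h1, h2]
  | single g c =>
    induction b using MonoidAlgebra.induction_linear with
    | zero => simp
    | add b b' h1 h2 => rw [map_add, add_mul, mul_add, h1, h2]
    | single h d =>
      rw [MonoidAlgebra.mapDomainRingHom_apply, MonoidAlgebra.mapDomainRingHom_apply,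
        MonoidAlgebra.mapDomain_single, MonoidAlgebra.mapDomain_single,
        MonoidAlgebra.single_mul_single, MonoidAlgebra.single_mul_single]
      simp [mul_comm]

/-- the boundary in the first variable -/
def D1 : Matrix (C.ι × E.ι) (C.ι × E.ι) (MonoidAlgebra ℤ (G × H)) :=
  Matrix.of fun x y => if x.2 = y.2 then
    MonoidAlgebra.mapDomainRingHom ℤ (MonoidHom.inl G H) (C.D x.1 y.1) else 0

/-- the boundary in the second variable -/
def D2 : Matrix (C.ι × E.ι) (C.ι × E.ι) (MonoidAlgebra ℤ (G × H)) :=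
  Matrix.of fun x y => if x.1 = y.1 then
    (-1) ^ C.deg x.1 * MonoidAlgebra.mapDomainRingHom ℤ (MonoidHom.inr G H) (E.D x.2 y.2) else 0

theorem prod_D : (C.prod E).D = D1 C E + D2 C E := rfl

theorem adj_add {K I : Type} [Group K] (A B : Matrix I I (MonoidAlgebra ℤ K)) :
    adj (A + B) = adj A + adj B := by
  ext1 i j
  rw [adj_apply, Matrix.add_apply, Matrix.add_apply, iv_add, adj_apply, adj_apply]

/-- sums with two conditions -/
theorem sum_two {I J M : Type} [Fintype I] [Fintype J] [DecidableEq I] [DecidableEq J] [AddCommMonoid M]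
    (a : I) (b : J) (F : I × J → M) (h : ∀ z, z.1 ≠ a ∨ z.2 ≠ b → F z = 0) :
    ∑ z, F z = F (a, b) := by
  apply Finset.sum_eq_single
  · intro z _ hz
    apply h
    by_contra hcon
    push Not at hcon
    exact hz (Prod.ext hcon.1 hcon.2)
  · intro h1
    exact absurd (Finset.mem_univ _) h1

theorem cross1 : D1 C E * adj (D2 C E) + adj (D2 C E) * D1 C E = 0 := by
  ext1 x y
  rw [Matrix.add_apply, Matrix.mul_apply, Matrix.mul_apply,
    sum_two y.1 x.2 (fun z => D1 C E x z * adj (D2 C E) z y),
    sum_two x.1 y.2 (fun z => adj (D2 C E) x z * D1 C E z y)]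
  · simp only [adj_apply, D1, D2, Matrix.of_apply, if_true, iv_sign, iv_map, Matrix.zero_apply]
    by_cases h0 : C.D x.1 y.1 = 0
    · rw [h0, map_zero, zero_mul, mul_zero, add_zero]
    · have h1 := C.D_deg _ _ h0
      rw [h1, pow_succ]
      have h2 := inl_inr_comm (C.D x.1 y.1) (iv (E.D y.2 x.2))
      have h3 : Commute (MonoidAlgebra.mapDomainRingHom ℤ (MonoidHom.inl G H) (C.D x.1 y.1))
          ((-1 : MonoidAlgebra ℤ (G × H)) ^ C.deg y.1) :=
        (Commute.neg_one_right _).pow_right _
      rw [← mul_assoc, h3.eq, mul_assoc, h2, mul_assoc, mul_assoc, neg_one_mul, mul_neg,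
        add_neg_cancel]
  · rintro ⟨z1, z2⟩ (hz | hz)
    · have : adj (D2 C E) x (z1, z2) = 0 := by
        rw [adj_apply, D2, Matrix.of_apply, if_neg hz, iv_zero]
      rw [this, zero_mul]
    · have : D1 C E (z1, z2) y = 0 := by
        rw [D1, Matrix.of_apply, if_neg hz]
      rw [this, mul_zero]
  · rintro ⟨z1, z2⟩ (hz | hz)
    · have : adj (D2 C E) (z1, z2) y = 0 := by
        rw [adj_apply, D2, Matrix.of_apply, if_neg (fun h => hz h.symm), iv_zero]
      rw [this, mul_zero]
    · have : D1 C E x (z1, z2) = 0 := by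
        rw [D1, Matrix.of_apply, if_neg (fun h => hz h.symm)]
      rw [this, zero_mul]

theorem cross2 : D2 C E * adj (D1 C E) + adj (D1 C E) * D2 C E = 0 := by
  ext1 x y
  rw [Matrix.add_apply, Matrix.mul_apply, Matrix.mul_apply,
    sum_two x.1 y.2 (fun z => D2 C E x z * adj (D1 C E) z y),
    sum_two y.1 x.2 (fun z => adj (D1 C E) x z * D2 C E z y)]
  · simp only [adj_apply, D1, D2, Matrix.of_apply, if_true, iv_map, Matrix.zero_apply]
    by_cases h0 : C.D y.1 x.1 = 0
    · rw [h0, iv_zero, map_zero, zero_mul, mul_zero, add_zero]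
    · have h1 := C.D_deg _ _ h0
      rw [h1, pow_succ]
      have h2 := inl_inr_comm (iv (C.D y.1 x.1)) (E.D x.2 y.2)
      have h3 : Commute (MonoidAlgebra.mapDomainRingHom ℤ (MonoidHom.inl G H) (iv (C.D y.1 x.1)))
          ((-1 : MonoidAlgebra ℤ (G × H)) ^ C.deg x.1 * -1) :=
        ((Commute.neg_one_right _).pow_right _).mul_right (Commute.neg_one_right _)
      rw [← mul_assoc (MonoidAlgebra.mapDomainRingHom ℤ (MonoidHom.inl G H) (iv (C.D y.1 x.1))), h3.eq,
        mul_assoc ((-1 : MonoidAlgebra ℤ (G × H)) ^ C.deg x.1 * -1), h2, mul_assoc, mul_assoc,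
        neg_one_mul, mul_neg, add_neg_cancel]
  · rintro ⟨z1, z2⟩ (hz | hz)
    · have : D2 C E (z1, z2) y = 0 := by
        rw [D2, Matrix.of_apply, if_neg hz]
      rw [this, mul_zero]
    · have : adj (D1 C E) x (z1, z2) = 0 := by
        rw [adj_apply, D1, Matrix.of_apply, if_neg hz, iv_zero]
      rw [this, zero_mul]
  · rintro ⟨z1, z2⟩ (hz | hz)
    · have : D2 C E x (z1, z2) = 0 := by
        rw [D2, Matrix.of_apply, if_neg (fun h => hz h.symm)]
      rw [this, zero_mul]
    · have : adj (D1 C E) (z1, z2) y = 0 := by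
        rw [adj_apply, D1, Matrix.of_apply, if_neg (fun h => hz h.symm), iv_zero]
      rw [this, mul_zero]

/-- the symmetric product -/
def hd {K I : Type} [Group K] [Fintype I] (A : Matrix I I (MonoidAlgebra ℤ K)) :
    Matrix I I (MonoidAlgebra ℤ K) := A * adj A + adj A * A

theorem lap_prod : lap (C.prod E) = hd (D1 C E) + hd (D2 C E) := by
  have h1 := cross1 C E
  have h2 := cross2 C E
  change (D1 C E + D2 C E) * adj (D1 C E + D2 C E) +
    adj (D1 C E + D2 C E) * (D1 C E + D2 C E) = _
  unfold hd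
  rw [adj_add]
  have h3 : (D1 C E + D2 C E) * (adj (D1 C E) + adj (D2 C E)) +
      (adj (D1 C E) + adj (D2 C E)) * (D1 C E + D2 C E)
      = (D1 C E * adj (D1 C E) + adj (D1 C E) * D1 C E) +
        (D2 C E * adj (D2 C E) + adj (D2 C E) * D2 C E) +
        (D1 C E * adj (D2 C E) + adj (D2 C E) * D1 C E) +
        (D2 C E * adj (D1 C E) + adj (D1 C E) * D2 C E) := by
    rw [add_mul, mul_add, mul_add, add_mul, mul_add, mul_add]
    abel
  rw [h3, h1, h2, add_zero, add_zero]

theorem hd_D1 (x y : C.ι × E.ι) : hd (D1 C E) x y = if x.2 = y.2 then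
    MonoidAlgebra.mapDomainRingHom ℤ (MonoidHom.inl G H) (lap C x.1 y.1) else 0 := by
  unfold hd lap
  rw [Matrix.add_apply, Matrix.mul_apply, Matrix.mul_apply, Fintype.sum_prod_type,
    Fintype.sum_prod_type, Matrix.add_apply, Matrix.mul_apply, Matrix.mul_apply, map_add, map_sum,
    map_sum]
  by_cases hxy : x.2 = y.2
  · rw [if_pos hxy]
    congr 1
    · apply Finset.sum_congr rfl
      intro k _
      rw [Finset.sum_eq_single x.2]
      · simp only [adj_apply, D1, Matrix.of_apply, if_true, hxy]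
        rw [iv_map, map_mul]
      · intro l _ hl
        have : D1 C E x (k, l) = 0 := by
          rw [D1, Matrix.of_apply, if_neg (fun h => hl h.symm)]
        rw [this, zero_mul]
      · intro h
        exact absurd (Finset.mem_univ _) h
    · apply Finset.sum_congr rfl
      intro k _
      rw [Finset.sum_eq_single x.2]
      · simp only [adj_apply, D1, Matrix.of_apply, if_true, hxy]
        rw [iv_map, map_mul]
      · intro l _ hl
        have : adj (D1 C E) x (k, l) = 0 := by
          rw [adj_apply, D1, Matrix.of_apply, if_neg hl, iv_zero]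
        rw [this, zero_mul]
      · intro h
        exact absurd (Finset.mem_univ _) h
  · rw [if_neg hxy, Finset.sum_eq_zero, Finset.sum_eq_zero, add_zero]
    · intro k _
      apply Finset.sum_eq_zero
      intro l _
      by_cases hl : l = x.2
      · have : D1 C E (k, l) y = 0 := by
          rw [D1, Matrix.of_apply, if_neg (by simp only; rw [hl]; exact hxy)]
        rw [this, mul_zero]
      · have : adj (D1 C E) x (k, l) = 0 := by
          rw [adj_apply, D1, Matrix.of_apply, if_neg hl, iv_zero]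
        rw [this, zero_mul]
    · intro k _
      apply Finset.sum_eq_zero
      intro l _
      by_cases hl : x.2 = l
      · have : adj (D1 C E) (k, l) y = 0 := by
          rw [adj_apply, D1, Matrix.of_apply, if_neg (by simp only; rw [← hl]; exact fun h => hxy h.symm),
            iv_zero]
        rw [this, mul_zero]
      · have : D1 C E x (k, l) = 0 := by
          rw [D1, Matrix.of_apply, if_neg hl]
        rw [this, zero_mul]

end two

/-! ### positivity -/

theorem pos_gen {X : Type} [NormedAddCommGroup X] [InnerProductSpace ℂ X] [CompleteSpace X]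
    (A B : X →L[ℂ] X) (v : X)
    (h : (ContinuousLinearMap.adjoint A ∘L A + A ∘L ContinuousLinearMap.adjoint A +
      (ContinuousLinearMap.adjoint B ∘L B + B ∘L ContinuousLinearMap.adjoint B)) v = 0) :
    (ContinuousLinearMap.adjoint A ∘L A + A ∘L ContinuousLinearMap.adjoint A) v = 0 := by
  have key : ∀ T : X →L[ℂ] X,
      ⟪v, (ContinuousLinearMap.adjoint T ∘L T + T ∘L ContinuousLinearMap.adjoint T) v⟫_ℂ =
      ((‖T v‖ ^ 2 + ‖ContinuousLinearMap.adjoint T v‖ ^ 2 : ℝ) : ℂ) := by
    intro T
    have e1 : ⟪v, ContinuousLinearMap.adjoint T (T v)⟫_ℂ = ⟪T v, T v⟫_ℂ :=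
      ContinuousLinearMap.adjoint_inner_right T _ _
    have e2 : ⟪v, T (ContinuousLinearMap.adjoint T v)⟫_ℂ =
        ⟪ContinuousLinearMap.adjoint T v, ContinuousLinearMap.adjoint T v⟫_ℂ :=
      (ContinuousLinearMap.adjoint_inner_left T _ _).symm
    rw [add_apply, inner_add_right, ContinuousLinearMap.comp_apply,
      ContinuousLinearMap.comp_apply, e1, e2, inner_self_eq_norm_sq_to_K,
      inner_self_eq_norm_sq_to_K]
    push_cast
    rfl
  have h1 := congrArg (fun w => ⟪v, w⟫_ℂ) h
  rw [add_apply, inner_add_right, key, key, inner_zero_right, ← Complex.ofReal_add] at h1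
  have h2 := Complex.ofReal_eq_zero.mp h1
  have e1 := sq_nonneg ‖A v‖
  have e2 := sq_nonneg ‖ContinuousLinearMap.adjoint A v‖
  have e3 := sq_nonneg ‖B v‖
  have e4 := sq_nonneg ‖ContinuousLinearMap.adjoint B v‖
  have h3 : ‖A v‖ ^ 2 = 0 := by linarith
  have h4 : ‖ContinuousLinearMap.adjoint A v‖ ^ 2 = 0 := by linarith
  have h5 := norm_eq_zero.mp (pow_eq_zero_iff two_ne_zero |>.mp h3)
  have h6 := norm_eq_zero.mp (pow_eq_zero_iff two_ne_zero |>.mp h4)
  rw [add_apply, ContinuousLinearMap.comp_apply, ContinuousLinearMap.comp_apply, h5, h6,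
    map_zero, map_zero, add_zero]

section pos

variable {K : Type} [Group K] {r : ℕ}

theorem adj_eq (X : Matrix (Fin r) (Fin r) (MonoidAlgebra ℤ K)) : adj X = adjZ X := rfl

theorem hd_op (X : Matrix (Fin r) (Fin r) (MonoidAlgebra ℤ K)) :
    rMul ((hd X).map toQ) =
      ContinuousLinearMap.adjoint (rMul (X.map toQ)) ∘L rMul (X.map toQ) +
      rMul (X.map toQ) ∘L ContinuousLinearMap.adjoint (rMul (X.map toQ)) := by
  unfold hd
  rw [adj_eq, toQ_add, rMul_add, toQ_mul, toQ_mul, toQ_adjZ, rMul_mul, rMul_mul, ← adjoint_rMul]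

theorem pos_ker (X Y : Matrix (Fin r) (Fin r) (MonoidAlgebra ℤ K)) (v : L2Pow K r)
    (h : rMul ((hd X + hd Y).map toQ) v = 0) : rMul ((hd X).map toQ) v = 0 := by
  rw [toQ_add, rMul_add, hd_op, hd_op] at h
  rw [hd_op]
  exact pos_gen _ _ v h

/-- the same for functions on a finite set of cells -/
theorem pos_act {I : Type} [Fintype I] (X Y : Matrix I I (MonoidAlgebra ℤ K))
    (f : I → K → ℂ) (hf : Sq f) (h : ∀ j g, act (hd X + hd Y) f j g = 0) :
    ∀ j g, act (hd X) f j g = 0 := by
  classical
  set e := (Fintype.equivFin I).symm with he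
  have hsub : ∀ Z : Matrix I I (MonoidAlgebra ℤ K), (hd Z).submatrix e e = hd (Z.submatrix e e) := by
    intro Z
    ext1 a b
    unfold hd
    rw [Matrix.submatrix_apply, Matrix.add_apply, Matrix.add_apply, Matrix.mul_apply,
      Matrix.mul_apply, Matrix.mul_apply, Matrix.mul_apply, ← e.sum_comp, ← e.sum_comp]
    rfl
  have hact : ∀ (Z : Matrix I I (MonoidAlgebra ℤ K)) a g,
      act (Z.submatrix e e) (fun i g => f (e i) g) a g = act Z f (e a) g := by
    intro Z a g
    unfold act
    rw [← e.sum_comp]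
    rfl
  have hSq : Sq (fun i g => f (e i) g) := by
    refine hf.comp (fun p : Fin (Fintype.card I) × K => ((e p.1, p.2) : I × K)) ?_ _ (fun p => rfl)
    rintro ⟨a, x⟩ ⟨b, y⟩ hab
    rw [Prod.mk.injEq] at hab
    rw [Prod.mk.injEq]
    exact ⟨e.injective hab.1, hab.2⟩
  obtain ⟨v, hv⟩ := exists_L2 _ hSq
  have hv' : (fun i g => coord v i g) = fun i g => f (e i) g := funext fun i => funext fun g => hv i g
  have h1 : rMul ((hd (X.submatrix e e) + hd (Y.submatrix e e)).map toQ) v = 0 := by
    apply coord_ext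
    intro j g
    rw [coord_zero, rMul_coord, hv', ← hsub, ← hsub,
      show (hd X).submatrix e e + (hd Y).submatrix e e = (hd X + hd Y).submatrix e e from rfl, hact]
    exact h _ _
  have h2 := pos_ker _ _ v h1
  intro j g
  have h3 := congrArg (fun w => coord w (e.symm j) g) h2
  simp only [coord_zero, rMul_coord] at h3
  rw [hv', ← hsub, hact] at h3
  simpa using h3

end pos

theorem inj_prod {G H : Type} [Group G] [Group H] (C : GCx G) (E : GCx H) (h : Inj (lap C)) :
    Inj (lap (C.prod E)) := by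
  intro f hf h0
  rw [lap_prod] at h0
  have h1 := pos_act (D1 C E) (D2 C E) f hf h0
  rintro ⟨i, j⟩ ⟨g, k⟩
  have h2 : Sq (fun (i : C.ι) (g : G) => f (i, j) (g, k)) := by
    refine hf.comp (fun p : C.ι × G =>
        (((p.1, j), (p.2, k)) : (C.ι × E.ι) × (G × H))) ?_ _ (fun p => rfl)
    rintro ⟨a, x⟩ ⟨b, y⟩ hab
    exact congrArg (fun p : (C.ι × E.ι) × (G × H) => (p.1.1, p.2.1)) hab
  refine h (fun i g => f (i, j) (g, k)) h2 (fun i' g' => ?_) i g
  have h4 := h1 (i', j) (g', k)
  rw [← h4]
  unfold act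
  rw [Fintype.sum_prod_type]
  apply Finset.sum_congr rfl
  intro a _
  rw [Finset.sum_eq_single j]
  · rw [hd_D1]
    simp only [if_true]
    rw [ev_map]
    congr 1
    funext x
    simp
  · intro l _ hl
    rw [hd_D1]
    simp only [if_neg hl]
    exact ev_zero _
  · intro h
    exact absurd (Finset.mem_univ _) h

theorem main : S_P5I := by
  intro G H _ _ C E h n
  have h1 : Inj (lap C) := by
    apply inj_lap
    intro n
    rw [← inj_iff]
    intro v hv
    apply h n v
    rw [FreeCx.laplacian_eq]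
    exact hv
  have h2 := inj_block (C.prod E) (inj_prod C E h1) n
  rw [← inj_iff] at h2
  intro v hv
  rw [FreeCx.laplacian_eq] at hv
  exact h2 v hv

end Run7.h308.LT.P5I
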