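import Pool.Agent.Run7.h308.LT.MvE

/-!
# A checker for sequences of edge subdivisions and inverse edge subdivisions of flag complexes

A graph with vertices `< n` is a natural number `M`: the bit `u * (n + 1) + v` of `M` is the adjacency of `u` and
`v`. The set of active vertices is a natural number `a`.
-/

set_option autoImplicit false

namespace Pool.Agent.Run7.h308.LT.Chk

open Pool.Agent.Run7.h308.LT.Mv

/-! ### bits -/

/-- `c` copies of the block `L` of `w` bits -/
def rep (w : ℕ) : ℕ → ℕ → ℕ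
  | 0, _ => 0
  | c + 1, L => Nat.add (Nat.mul (Nat.pow 2 w) (rep w c L)) L

theorem testBit_rep {w L : ℕ} (hL : L < 2 ^ w) (hw : 0 < w) (c n : ℕ) :
    (rep w c L).testBit n = (decide (n / w < c) && L.testBit (n % w)) := by
  induction c generalizing n with
  | zero => simp [rep]
  | succ c ih =>
    have h1 : rep w (c + 1) L = 2 ^ w * rep w c L + L := rfl
    rw [h1, Nat.testBit_two_pow_mul_add _ hL]
    split_ifs with h
    · rw [Nat.div_eq_of_lt h, Nat.mod_eq_of_lt h]
      simp
    · push Not at h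
      rw [ih]
      have h2 : n = (n - w) + w := by omega
      have h3 : n / w = (n - w) / w + 1 := by
        conv_lhs => rw [h2]
        exact Nat.add_div_right _ hw
      have h4 : n % w = (n - w) % w := by
        conv_lhs => rw [h2]
        exact Nat.add_mod_right _ _
      rw [h3, h4]
      simp

theorem rep_mul (w c L : ℕ) : L * rep w c 1 = rep w c L := by
  induction c with
  | zero => rfl
  | succ c ih =>
    have h1 : rep w (c + 1) L = 2 ^ w * rep w c L + L := rfl
    have h2 : rep w (c + 1) 1 = 2 ^ w * rep w c 1 + 1 := rfl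
    rw [h1, h2, ← ih]
    ring

/-- the column with the bits of `L` -/
def sp (n L : ℕ) : ℕ := Nat.land (Nat.mul L (rep n (n + 1) 1)) (rep (n + 1) (n + 1) 1)

theorem testBit_sp {n L : ℕ} (hn : 0 < n) (hL : L < 2 ^ n) (x : ℕ) :
    (sp n L).testBit x = (decide (x % (n + 1) = 0) && L.testBit (x / (n + 1))) := by
  have h1 : sp n L = (L * rep n (n + 1) 1) &&& rep (n + 1) (n + 1) 1 := rfl
  rw [h1, Nat.testBit_land, rep_mul, testBit_rep hL hn, testBit_rep (by
    calc 1 < 2 ^ 1 := by norm_num
      _ ≤ 2 ^ (n + 1) := Nat.pow_le_pow_right (by norm_num) (by omega)) (by omega)]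
  have h5 : (1 : ℕ).testBit (x % (n + 1)) = decide (x % (n + 1) = 0) := by
    rcases Nat.eq_zero_or_pos (x % (n + 1)) with h | h
    · rw [h]
      rfl
    · rw [decide_eq_false (by omega)]
      refine Nat.testBit_lt_two_pow ?_
      calc 1 < 2 ^ 1 := by norm_num
        _ ≤ 2 ^ (x % (n + 1)) := Nat.pow_le_pow_right (by norm_num) h
  rw [h5]
  by_cases h0 : x % (n + 1) = 0
  · have hx : x = (x / (n + 1)) * n + x / (n + 1) := by
      have := Nat.div_add_mod x (n + 1)
      rw [h0, Nat.add_zero] at this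
      calc x = (n + 1) * (x / (n + 1)) := this.symm
        _ = (x / (n + 1)) * n + x / (n + 1) := by ring
    generalize x / (n + 1) = j at hx ⊢
    rw [decide_eq_true h0]
    rcases Nat.lt_or_ge j n with hj | hj
    · have e1 : x / n = j := by
        rw [hx, Nat.mul_comm, Nat.mul_add_div hn, Nat.div_eq_of_lt hj, Nat.add_zero]
      have e2 : x % n = j := by
        rw [hx, Nat.mul_comm, Nat.mul_add_mod, Nat.mod_eq_of_lt hj]
      rw [e1, e2, decide_eq_true (by omega : j < n + 1)]
      simp
    · have e3 : L.testBit j = false := Nat.testBit_lt_two_pow (lt_of_lt_of_le hL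
        (Nat.pow_le_pow_right (by norm_num) hj))
      have e4 : ¬ x / n < n + 1 := by
        rw [hx, Nat.not_lt, Nat.le_div_iff_mul_le hn]
        nlinarith
      rw [e3, decide_eq_false e4]
      simp
  · rw [decide_eq_false h0]
    simp

/-- the row of the vertex `s` -/
def row (n M s : ℕ) : ℕ := Nat.mod (Nat.shiftRight M (Nat.mul s (n + 1))) (Nat.pow 2 n)

theorem testBit_row (n M s v : ℕ) : (row n M s).testBit v = (decide (v < n) && M.testBit (s * (n + 1) + v)) := by
  have h1 : row n M s = (M >>> (s * (n + 1))) % 2 ^ n := rfl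
  rw [h1, Nat.testBit_mod_two_pow, Nat.testBit_shiftRight]

theorem row_lt (n M s : ℕ) : row n M s < 2 ^ n := Nat.mod_lt _ (Nat.pos_of_ne_zero (by
  exact pow_ne_zero _ (by norm_num)))

/-- toggling the pairs `(m, v)`, `v` in `L` -/
def tog (n M L m : ℕ) : ℕ :=
  Nat.xor (Nat.xor M (Nat.shiftLeft L (Nat.mul m (n + 1)))) (Nat.shiftLeft (sp n L) m)

theorem testBit_tog {n M L m u v : ℕ} (hL : L < 2 ^ n) (hm : m < n) (hu : u < n) (hv : v < n) :
    (tog n M L m).testBit (u * (n + 1) + v) =
      ((M.testBit (u * (n + 1) + v) ^^ (decide (u = m) && L.testBit v)) ^^ (decide (v = m) && L.testBit u)) := by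
  have h1 : tog n M L m = (M ^^^ (L <<< (m * (n + 1)))) ^^^ (sp n L <<< m) := rfl
  rw [h1, Nat.testBit_xor, Nat.testBit_xor, Nat.testBit_shiftLeft, Nat.testBit_shiftLeft, testBit_sp (by omega) hL]
  congr 1
  · congr 1
    by_cases hum : u = m
    · subst hum
      rw [decide_eq_true rfl, decide_eq_true (by omega : u * (n + 1) + v ≥ u * (n + 1)), Nat.add_sub_cancel_left]
    · rw [decide_eq_false hum, Bool.false_and]
      rcases Nat.lt_or_ge u m with h | h
      · rw [decide_eq_false, Bool.false_and]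
        nlinarith
      · have h2 : m + 1 ≤ u := by omega
        have h3 : L.testBit (u * (n + 1) + v - m * (n + 1)) = false := by
          refine Nat.testBit_lt_two_pow (lt_of_lt_of_le hL (Nat.pow_le_pow_right (by norm_num) ?_))
          have h4 : (m + 1) * (n + 1) ≤ u * (n + 1) := Nat.mul_le_mul_right _ h2
          have h5 : (m + 1) * (n + 1) = m * (n + 1) + n + 1 := by ring
          omega
        rw [h3, Bool.and_false]
  · by_cases hvm : v = m
    · subst hvm
      have h2 : u * (n + 1) + v - v = u * (n + 1) := by omega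
      rw [decide_eq_true rfl, decide_eq_true (by omega : u * (n + 1) + v ≥ v), h2, Nat.mul_mod_left,
        Nat.mul_div_cancel _ (by omega)]
      simp
    · rw [decide_eq_false hvm, Bool.false_and]
      rcases Nat.lt_or_ge (u * (n + 1) + v) m with h | h
      · rw [decide_eq_false (by omega), Bool.false_and]
      · have h2 : (u * (n + 1) + v - m) % (n + 1) ≠ 0 := by
          intro h3
          obtain ⟨c, hc⟩ := Nat.dvd_of_mod_eq_zero h3
          have h4 : u * (n + 1) + v = (n + 1) * c + m := by omega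
          have h5 : (u * (n + 1) + v) % (n + 1) = v := by
            rw [Nat.mul_comm, Nat.mul_add_mod, Nat.mod_eq_of_lt (by omega)]
          rw [h4, Nat.mul_add_mod, Nat.mod_eq_of_lt (by omega)] at h5
          exact hvm h5.symm
        rw [decide_eq_false h2]
        simp

/-- a fast version of `testBit` -/
def bt (x i : ℕ) : Bool := Nat.beq (Nat.mod (Nat.shiftRight x i) 2) 1

theorem bt_eq (x i : ℕ) : bt x i = x.testBit i := by
  have h1 : bt x i = Nat.beq ((x >>> i) % 2) 1 := rfl
  rw [h1, Nat.testBit_eq_decide_div_mod_eq, Nat.shiftRight_eq_div_pow]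
  by_cases h : x / 2 ^ i % 2 = 1
  · rw [h]
    rfl
  · rw [decide_eq_false h]
    exact Bool.eq_false_iff.2 fun h' => h (Nat.eq_of_beq_eq_true h')

theorem aux {u v s t : ℕ} (hst : s ≠ t) :
    ((decide (u = t) && decide (v = s)) ^^ (decide (v = t) && decide (u = s))) =
      (decide (u = s ∧ v = t) || decide (u = t ∧ v = s)) := by
  by_cases h1 : u = s
  · have h2 : ¬ u = t := fun e => hst (h1.symm.trans e)
    by_cases h4 : v = t <;> simp [h1, h4, hst]
  · by_cases h2 : u = t <;> by_cases h3 : v = s <;> simp [h1, h2, h3, hst.symm]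

/-! ### states -/

/-- the graph of a natural number -/
def gr (n M : ℕ) : SimpleGraph (Fin n) where
  Adj u v := u ≠ v ∧ M.testBit (u * (n + 1) + v) = true ∧ M.testBit (v * (n + 1) + u) = true
  symm := ⟨fun _ _ h => ⟨h.1.symm, h.2.2, h.2.1⟩⟩
  loopless := ⟨fun _ h => h.1 rfl⟩

/-- the active vertices -/
def al (n a : ℕ) : Set (Fin n) := {v | a.testBit v = true}

/-- a state is good -/
structure Good (k n M a : ℕ) : Prop where
  lt : ∀ i, a.testBit i = true → i < n
  sy : ∀ u v, a.testBit u = true → a.testBit v = true →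
    M.testBit (u * (n + 1) + v) = M.testBit (v * (n + 1) + u)
  hs : HS k (gr n M) (al n a)
  em : EmA k (gr n M) (al n a)

/-- the relation of the numbers of a graph and its subdivision -/
structure Sb (n M M' a m s t : ℕ) : Prop where
  hm : m < n
  hma : a.testBit m = false
  hs : a.testBit s = true
  ht : a.testBit t = true
  hst : s ≠ t
  ed : M.testBit (s * (n + 1) + t) = true
  cc : ∀ u v, a.testBit u = true → a.testBit v = true → M'.testBit (u * (n + 1) + v) =
    (M.testBit (u * (n + 1) + v) ^^ (decide (u = s ∧ v = t) || decide (u = t ∧ v = s)))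
  mc : ∀ v, a.testBit v = true → M'.testBit (m * (n + 1) + v) =
    (decide (v = s) || decide (v = t) || (M.testBit (s * (n + 1) + v) && M.testBit (t * (n + 1) + v)))
  cm : ∀ v, a.testBit v = true → M'.testBit (v * (n + 1) + m) = M'.testBit (m * (n + 1) + v)

theorem Sb.sd {n M M' a m s t : ℕ} (h : Sb n M M' a m s t) (hlt : ∀ i, a.testBit i = true → i < n)
    (hsy : ∀ u v, a.testBit u = true → a.testBit v = true →
      M.testBit (u * (n + 1) + v) = M.testBit (v * (n + 1) + u)) :
    Sd (gr n M) (gr n M') (al n a) ⟨m, h.hm⟩ ⟨s, hlt s h.hs⟩ ⟨t, hlt t h.ht⟩ where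
  hm := by
    intro h1
    have h1 : a.testBit m = true := h1
    rw [h.hma] at h1
    exact absurd h1 (by simp)
  hs := h.hs
  ht := h.ht
  hst := ⟨fun e => h.hst (by simpa using e), h.ed, by
    show M.testBit (t * (n + 1) + s) = true
    rw [hsy t s h.ht h.hs]
    exact h.ed⟩
  cc u hu v hv := by
    have hu : a.testBit u = true := hu
    have hv : a.testBit v = true := hv
    show (u ≠ v ∧ M'.testBit (u * (n + 1) + v) = true ∧ M'.testBit (v * (n + 1) + u) = true) ↔
      (u ≠ v ∧ M.testBit (u * (n + 1) + v) = true ∧ M.testBit (v * (n + 1) + u) = true) ∧ _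
    have e0 : (s(u, v) ≠ s(⟨s, hlt s h.hs⟩, ⟨t, hlt t h.ht⟩)) ↔ ¬ ((u = ⟨s, hlt s h.hs⟩ ∧ v = ⟨t, hlt t h.ht⟩) ∨
      (u = ⟨t, hlt t h.ht⟩ ∧ v = ⟨s, hlt s h.hs⟩)) := not_congr Sym2.eq_iff
    rw [h.cc u v hu hv, h.cc v u hv hu, hsy v u hv hu, e0]
    have e1 : M.testBit (t * (n + 1) + s) = true := by
      rw [hsy t s h.ht h.hs]
      exact h.ed
    by_cases h1 : (u : ℕ) = s ∧ (v : ℕ) = t
    · have h2 : u = ⟨s, hlt s h.hs⟩ ∧ v = ⟨t, hlt t h.ht⟩ := ⟨Fin.ext h1.1, Fin.ext h1.2⟩
      constructor
      · rintro ⟨-, h3, -⟩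
        rw [h1.1, h1.2, h.ed] at h3
        simp at h3
      · rintro ⟨-, h3⟩
        exact absurd (Or.inl h2) h3
    · by_cases h2 : (u : ℕ) = t ∧ (v : ℕ) = s
      · have h4 : u = ⟨t, hlt t h.ht⟩ ∧ v = ⟨s, hlt s h.hs⟩ := ⟨Fin.ext h2.1, Fin.ext h2.2⟩
        constructor
        · rintro ⟨-, h3, -⟩
          rw [h2.1, h2.2, e1] at h3
          simp at h3
        · rintro ⟨-, h3⟩
          exact absurd (Or.inr h4) h3
      · have h3 : (decide ((u : ℕ) = s ∧ (v : ℕ) = t) || decide ((u : ℕ) = t ∧ (v : ℕ) = s)) = false := by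
          rw [decide_eq_false h1, decide_eq_false h2]
          rfl
        have h4 : (decide ((v : ℕ) = s ∧ (u : ℕ) = t) || decide ((v : ℕ) = t ∧ (u : ℕ) = s)) = false := by
          rw [decide_eq_false (fun e => h2 e.symm), decide_eq_false (fun e => h1 e.symm)]
          rfl
        rw [h3, h4, Bool.xor_false]
        constructor
        · intro h5
          refine ⟨h5, ?_⟩
          rintro (⟨h6, h7⟩ | ⟨h6, h7⟩)
          · exact h1 ⟨congrArg Fin.val h6, congrArg Fin.val h7⟩
          · exact h2 ⟨congrArg Fin.val h6, congrArg Fin.val h7⟩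
        · exact fun h5 => h5.1
  mc v hv := by
    have hv' : a.testBit v = true := hv
    show ((⟨m, h.hm⟩ : Fin n) ≠ v ∧ M'.testBit (m * (n + 1) + v) = true ∧ M'.testBit (v * (n + 1) + m) = true) ↔
      v = _ ∨ v = _ ∨ (((⟨s, hlt s h.hs⟩ : Fin n) ≠ v ∧ M.testBit (s * (n + 1) + v) = true ∧
        M.testBit (v * (n + 1) + s) = true) ∧ ((⟨t, hlt t h.ht⟩ : Fin n) ≠ v ∧ M.testBit (t * (n + 1) + v) = true ∧
        M.testBit (v * (n + 1) + t) = true))
    rw [h.cm v hv', h.mc v hv', hsy v s hv' h.hs, hsy v t hv' h.ht]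
    have h0 : (⟨m, h.hm⟩ : Fin n) ≠ v := by
      rintro rfl
      have hv' : a.testBit m = true := hv
      rw [h.hma] at hv'
      exact absurd hv' (by simp)
    constructor
    · rintro ⟨-, h1, -⟩
      by_cases h2 : (v : ℕ) = s
      · exact Or.inl (Fin.ext h2)
      by_cases h3 : (v : ℕ) = t
      · exact Or.inr (Or.inl (Fin.ext h3))
      rw [decide_eq_false h2, decide_eq_false h3, Bool.false_or, Bool.false_or, Bool.and_eq_true] at h1
      exact Or.inr (Or.inr ⟨⟨fun e => h2 (congrArg Fin.val e).symm, h1.1, h1.1⟩,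
        ⟨fun e => h3 (congrArg Fin.val e).symm, h1.2, h1.2⟩⟩)
    · intro h1
      refine ⟨h0, ?_⟩
      rw [and_self]
      rcases h1 with h1 | h1 | h1
      · rw [decide_eq_true (congrArg Fin.val h1 : (v : ℕ) = s)]
        rfl
      · rw [decide_eq_true (congrArg Fin.val h1 : (v : ℕ) = t)]
        simp
      · rw [h1.1.2.1, h1.2.2.1]
        simp

theorem Sb.sy' {n M M' a m s t : ℕ} (h : Sb n M M' a m s t)
    (hsy : ∀ u v, a.testBit u = true → a.testBit v = true →
      M.testBit (u * (n + 1) + v) = M.testBit (v * (n + 1) + u)) (u v : ℕ)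
    (hu : (a ||| 2 ^ m).testBit u = true) (hv : (a ||| 2 ^ m).testBit v = true) :
    M'.testBit (u * (n + 1) + v) = M'.testBit (v * (n + 1) + u) := by
  rw [Nat.testBit_or, Nat.testBit_two_pow, Bool.or_eq_true, decide_eq_true_eq] at hu hv
  rcases hu with hu | hu
  · rcases hv with hv | hv
    · rw [h.cc u v hu hv, h.cc v u hv hu, hsy u v hu hv]
      congr 1
      rw [Bool.or_comm]
      congr 1 <;> congr 1 <;> rw [and_comm]
    · rw [← hv]
      exact h.cm u hu
  · rcases hv with hv | hv
    · rw [← hu]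
      exact (h.cm v hv).symm
    · rw [← hu, ← hv]

theorem al_or {n a m : ℕ} (hm : m < n) : al n (a ||| 2 ^ m) = insert ⟨m, hm⟩ (al n a) := by
  ext v
  show (a ||| 2 ^ m).testBit v = true ↔ v = _ ∨ a.testBit v = true
  rw [Nat.testBit_or, Nat.testBit_two_pow, Bool.or_eq_true, decide_eq_true_eq, or_comm]
  refine or_congr ⟨fun h => Fin.ext h.symm, fun h => (congrArg Fin.val h).symm⟩ Iff.rfl

theorem Sb.good {k n M M' a m s t : ℕ} (h : Sb n M M' a m s t) (hG : Good k n M a) :
    Good k n M' (a ||| 2 ^ m) where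
  lt i hi := by
    rw [Nat.testBit_or, Nat.testBit_two_pow, Bool.or_eq_true, decide_eq_true_eq] at hi
    rcases hi with hi | hi
    · exact hG.lt i hi
    · rw [← hi]
      exact h.hm
  sy := h.sy' hG.sy
  hs := by
    rw [al_or h.hm]
    exact (h.sd hG.lt hG.sy).fwd hG.hs
  em := by
    rw [al_or h.hm]
    exact (h.sd hG.lt hG.sy).em hG.em

theorem Sb.good_back {k n M M' a m s t : ℕ} (h : Sb n M M' a m s t)
    (hsy : ∀ u v, a.testBit u = true → a.testBit v = true →
      M.testBit (u * (n + 1) + v) = M.testBit (v * (n + 1) + u))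
    (hG : Good k n M' (a ||| 2 ^ m)) : Good k n M a where
  lt i hi := hG.lt i (by rw [Nat.testBit_or, hi, Bool.true_or])
  sy := hsy
  hs := by
    have h1 := hG.hs
    rw [al_or h.hm] at h1
    exact (h.sd (fun i hi => hG.lt i (by rw [Nat.testBit_or, hi, Bool.true_or])) hsy).hs_back h1
  em := by
    have h1 := hG.em
    rw [al_or h.hm] at h1
    exact (h.sd (fun i hi => hG.lt i (by rw [Nat.testBit_or, hi, Bool.true_or])) hsy).em_back h1

/-! ### the two moves -/

/-- the neighbours of the new vertex -/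
def nb (n M s t : ℕ) : ℕ := Nat.lor (Nat.lor (Nat.land (row n M s) (row n M t)) (Nat.pow 2 s)) (Nat.pow 2 t)

/-- the new matrix -/
def nw (n M L m s t : ℕ) : ℕ := tog n (tog n M L m) (Nat.pow 2 s) t

/-- the conditions for a subdivision -/
def ckS (n M a m s t : ℕ) : Bool :=
  Nat.ble (Nat.succ m) n && !bt a m && bt a s && bt a t && !Nat.beq s t && bt (row n M s) t &&
    Nat.beq (row n M m) 0 && Nat.beq (Nat.land (Nat.shiftRight M m) (rep (n + 1) (n + 1) 1)) 0

/-- the conditions for an inverse subdivision; `b` is the new set of active vertices -/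
def ckI (n M a b m s t : ℕ) : Bool :=
  Nat.beq (Nat.lor b (Nat.pow 2 m)) a && !bt b m && bt b s && bt b t && !Nat.beq s t &&
    !bt (row n M s) t && bt (row n M m) s && bt (row n M m) t &&
    Nat.beq (Nat.land (row n M s) (row n M t))
      (Nat.lor (Nat.xor (Nat.xor (row n M m) (Nat.pow 2 s)) (Nat.pow 2 t)) (Nat.pow 2 m))

theorem testBit_nw {n M L m s t u v : ℕ} (hL : L < 2 ^ n) (hm : m < n) (hs : s < n) (ht : t < n) (hu : u < n)
    (hv : v < n) : (nw n M L m s t).testBit (u * (n + 1) + v) =
      ((((M.testBit (u * (n + 1) + v) ^^ (decide (u = m) && L.testBit v)) ^^ (decide (v = m) && L.testBit u)) ^^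
        (decide (u = t) && decide (v = s))) ^^ (decide (v = t) && decide (u = s))) := by
  unfold nw
  have h1 : Nat.pow 2 s = 2 ^ s := rfl
  rw [testBit_tog (by rw [h1]; exact Nat.pow_lt_pow_right (by norm_num) hs) ht hu hv, testBit_tog hL hm hu hv, h1,
    Nat.testBit_two_pow, Nat.testBit_two_pow]
  congr 3
  · congr 1
    exact propext eq_comm
  · exact propext eq_comm

theorem nb_lt {n M s t : ℕ} (hs : s < n) (ht : t < n) : nb n M s t < 2 ^ n := by
  have h1 : nb n M s t = ((row n M s &&& row n M t) ||| 2 ^ s) ||| 2 ^ t := rfl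
  rw [h1]
  exact Nat.or_lt_two_pow (Nat.or_lt_two_pow (Nat.and_lt_two_pow _ (row_lt _ _ _))
    (Nat.pow_lt_pow_right (by norm_num) hs)) (Nat.pow_lt_pow_right (by norm_num) ht)

theorem ckS_sb {n M a m s t : ℕ} (hlt : ∀ i, a.testBit i = true → i < n)
    (h : ckS n M a m s t = true) : Sb n M (nw n M (nb n M s t) m s t) a m s t := by
  unfold ckS at h
  simp only [Bool.and_eq_true, Bool.not_eq_true', bt_eq, Nat.ble_eq, Nat.beq_eq, Nat.succ_le_iff] at h
  obtain ⟨⟨⟨⟨⟨⟨⟨hm, hma⟩, hs⟩, ht⟩, hst⟩, hed⟩, hrow⟩, hcol⟩ := h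
  have hst : s ≠ t := by
    intro e
    rw [e] at hst
    simp at hst
  have hsn := hlt s hs
  have htn := hlt t ht
  have hed : M.testBit (s * (n + 1) + t) = true := by
    rw [testBit_row, Bool.and_eq_true] at hed
    exact hed.2
  have hr0 : ∀ v, v < n → M.testBit (m * (n + 1) + v) = false := by
    intro v hv
    have h1 := testBit_row n M m v
    rw [hrow, Nat.zero_testBit, decide_eq_true hv, Bool.true_and] at h1
    exact h1.symm
  have hc0 : ∀ v, v < n → M.testBit (v * (n + 1) + m) = false := by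
    intro v hv
    have h1 : (M >>> m) &&& rep (n + 1) (n + 1) 1 = 0 := hcol
    have h2 : ((M >>> m) &&& rep (n + 1) (n + 1) 1).testBit (v * (n + 1)) = false := by
      rw [h1, Nat.zero_testBit]
    rw [Nat.testBit_land, Nat.testBit_shiftRight, testBit_rep (by
      calc 1 < 2 ^ 1 := by norm_num
        _ ≤ 2 ^ (n + 1) := Nat.pow_le_pow_right (by norm_num) (by omega)) (by omega),
      Nat.mul_div_cancel _ (by omega), Nat.mul_mod_left, decide_eq_true (by omega : v < n + 1), Nat.add_comm] at h2
    simpa using h2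
  have hnb : ∀ v, v < n → (nb n M s t).testBit v = (decide (v = s) || decide (v = t) ||
      (M.testBit (s * (n + 1) + v) && M.testBit (t * (n + 1) + v))) := by
    intro v hv
    have h1 : nb n M s t = ((row n M s &&& row n M t) ||| 2 ^ s) ||| 2 ^ t := rfl
    rw [h1, Nat.testBit_or, Nat.testBit_or, Nat.testBit_and, testBit_row, testBit_row, decide_eq_true hv,
      Nat.testBit_two_pow, Nat.testBit_two_pow, Bool.true_and, Bool.true_and,
      decide_eq_decide.2 (eq_comm : s = v ↔ v = s), decide_eq_decide.2 (eq_comm : t = v ↔ v = t)]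
    generalize decide (v = s) = b1
    generalize decide (v = t) = b2
    generalize M.testBit (s * (n + 1) + v) = b3
    generalize M.testBit (t * (n + 1) + v) = b4
    revert b1 b2 b3 b4
    decide
  have hms : m ≠ s := by
    rintro rfl
    rw [hma] at hs
    exact absurd hs (by simp)
  have hmt : m ≠ t := by
    rintro rfl
    rw [hma] at ht
    exact absurd ht (by simp)
  have hL := nb_lt (M := M) hsn htn
  refine ⟨hm, hma, hs, ht, hst, hed, ?_, ?_, ?_⟩
  · intro u v hu hv
    have hum : u ≠ m := by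
      rintro rfl
      rw [hma] at hu
      exact absurd hu (by simp)
    have hvm : v ≠ m := by
      rintro rfl
      rw [hma] at hv
      exact absurd hv (by simp)
    rw [testBit_nw hL hm hsn htn (hlt u hu) (hlt v hv), decide_eq_false hum, decide_eq_false hvm,
      Bool.false_and, Bool.false_and, Bool.xor_false, Bool.xor_false, Bool.xor_assoc]
    rw [aux hst]
  · intro v hv
    have hvm : v ≠ m := by
      rintro rfl
      rw [hma] at hv
      exact absurd hv (by simp)
    rw [testBit_nw hL hm hsn htn hm (hlt v hv), hr0 v (hlt v hv), decide_eq_true rfl, decide_eq_false hvm,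
      decide_eq_false hmt, decide_eq_false hms, ← hnb v (hlt v hv)]
    simp
  · intro v hv
    have hvm : v ≠ m := by
      rintro rfl
      rw [hma] at hv
      exact absurd hv (by simp)
    rw [testBit_nw hL hm hsn htn hm (hlt v hv), testBit_nw hL hm hsn htn (hlt v hv) hm, hr0 v (hlt v hv),
      hc0 v (hlt v hv), decide_eq_true rfl, decide_eq_false hvm, decide_eq_false hmt, decide_eq_false hms]
    simp

theorem ckI_sb {n M a b m s t : ℕ} (hlt : ∀ i, a.testBit i = true → i < n)
    (hsy : ∀ u v, a.testBit u = true → a.testBit v = true →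
      M.testBit (u * (n + 1) + v) = M.testBit (v * (n + 1) + u))
    (h : ckI n M a b m s t = true) : b ||| 2 ^ m = a ∧ Sb n (nw n M (row n M m) m s t) M b m s t ∧
      ∀ u v, b.testBit u = true → b.testBit v = true →
        (nw n M (row n M m) m s t).testBit (u * (n + 1) + v) =
          (nw n M (row n M m) m s t).testBit (v * (n + 1) + u) := by
  unfold ckI at h
  simp only [Bool.and_eq_true, Bool.not_eq_true', bt_eq, Nat.beq_eq] at h
  obtain ⟨⟨⟨⟨⟨⟨⟨⟨hab, hma⟩, hs⟩, ht⟩, hst⟩, hed⟩, hms'⟩, hmt'⟩, hL⟩ := h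
  have hab : b ||| 2 ^ m = a := hab
  have hba : ∀ u, b.testBit u = true → a.testBit u = true := by
    intro u hu
    rw [← hab, Nat.testBit_or, hu, Bool.true_or]
  have ham : a.testBit m = true := by
    rw [← hab, Nat.testBit_or, Nat.testBit_two_pow_self, Bool.or_true]
  have hst : s ≠ t := by
    intro e
    rw [e] at hst
    simp at hst
  have hm := hlt m ham
  have hsn := hlt s (hba s hs)
  have htn := hlt t (hba t ht)
  have hed : M.testBit (s * (n + 1) + t) = false := by
    rw [testBit_row, decide_eq_true htn, Bool.true_and] at hed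
    exact hed
  have hms : m ≠ s := by
    rintro rfl
    rw [hma] at hs
    exact absurd hs (by simp)
  have hmt : m ≠ t := by
    rintro rfl
    rw [hma] at ht
    exact absurd ht (by simp)
  have hrl := row_lt n M m
  have hne : ∀ u, b.testBit u = true → u ≠ m := by
    rintro u hu rfl
    rw [hma] at hu
    exact absurd hu (by simp)
  have key : ∀ u v, b.testBit u = true → b.testBit v = true →
      (nw n M (row n M m) m s t).testBit (u * (n + 1) + v) = (M.testBit (u * (n + 1) + v) ^^
        (decide (u = s ∧ v = t) || decide (u = t ∧ v = s))) := by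
    intro u v hu hv
    rw [testBit_nw hrl hm hsn htn (hlt u (hba u hu)) (hlt v (hba v hv)), decide_eq_false (hne u hu),
      decide_eq_false (hne v hv), Bool.false_and, Bool.false_and, Bool.xor_false, Bool.xor_false, Bool.xor_assoc]
    rw [aux hst]
  refine ⟨hab, ⟨hm, hma, hs, ht, hst, ?_, ?_, ?_, ?_⟩, ?_⟩
  · rw [key s t hs ht, hed, decide_eq_true ⟨rfl, rfl⟩]
    rfl
  · intro u v hu hv
    rw [key u v hu hv, Bool.xor_assoc, Bool.xor_self, Bool.xor_false]
  · intro v hv
    have hvn := hlt v (hba v hv)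
    have e1 := key s v hs hv
    have e2 := key t v ht hv
    have h1 : (row n M s &&& row n M t) = ((row n M m ^^^ 2 ^ s) ^^^ 2 ^ t) ||| 2 ^ m := hL
    have h2 := congrArg (fun x : ℕ => x.testBit v) h1
    simp only [Nat.testBit_and, Nat.testBit_or, Nat.testBit_xor, Nat.testBit_two_pow, testBit_row,
      decide_eq_true hvn, Bool.true_and] at h2
    rw [testBit_row, decide_eq_true hsn, Bool.true_and] at hms'
    rw [testBit_row, decide_eq_true htn, Bool.true_and] at hmt'
    by_cases hvs : v = s
    · rw [hvs, hms', decide_eq_true rfl]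
      rfl
    by_cases hvt : v = t
    · rw [hvt, hmt', decide_eq_true rfl]
      simp
    rw [e1, e2, decide_eq_false hvs, decide_eq_false hvt, decide_eq_false (fun e : s = s ∧ v = t => hvt e.2),
      decide_eq_false (fun e : s = t ∧ v = s => hst e.1), decide_eq_false (fun e : t = s ∧ v = t => hst e.1.symm),
      decide_eq_false (fun e : t = t ∧ v = s => hvs e.2)]
    simp only [Bool.or_false, Bool.xor_false, Bool.false_or]
    rw [h2, decide_eq_false (fun e => hvs e.symm), decide_eq_false (fun e => hvt e.symm),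
      decide_eq_false (fun e => (hne v hv) e.symm)]
    simp
  · intro v hv
    exact hsy v m (hba v hv) ham
  · intro u v hu hv
    rw [key u v hu hv, key v u hv hu, hsy u v (hba u hu) (hba v hv)]
    congr 1
    rw [Bool.or_comm]
    congr 1 <;> exact decide_eq_decide.2 and_comm

/-! ### runs -/

/-- Executing `f` moves. The moves are the digits of `N` in base `2 ^ (3 q + 1)`: the lowest bit of a digit is the
type (`0`: subdivision, `1`: inverse subdivision), followed by the vertices `m`, `s`, `t` with `q` bits each. -/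
def run (n q : ℕ) : ℕ → ℕ → ℕ → ℕ → ℕ → ℕ → Bool
  | 0, _, M, a, M', a' => Nat.beq M M' && Nat.beq a a'
  | f + 1, N, M, a, M', a' =>
    cond (Nat.beq (Nat.mod N 2) 0)
      (ckS n M a (Nat.mod (Nat.div N 2) (Nat.pow 2 q)) (Nat.mod (Nat.shiftRight N (q + 1)) (Nat.pow 2 q))
          (Nat.mod (Nat.shiftRight N (2 * q + 1)) (Nat.pow 2 q)) &&
        run n q f (Nat.shiftRight N (3 * q + 1))
          (nw n M (nb n M (Nat.mod (Nat.shiftRight N (q + 1)) (Nat.pow 2 q))
            (Nat.mod (Nat.shiftRight N (2 * q + 1)) (Nat.pow 2 q)))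
            (Nat.mod (Nat.div N 2) (Nat.pow 2 q)) (Nat.mod (Nat.shiftRight N (q + 1)) (Nat.pow 2 q))
            (Nat.mod (Nat.shiftRight N (2 * q + 1)) (Nat.pow 2 q)))
          (Nat.lor a (Nat.pow 2 (Nat.mod (Nat.div N 2) (Nat.pow 2 q)))) M' a')
      (ckI n M a (Nat.xor a (Nat.pow 2 (Nat.mod (Nat.div N 2) (Nat.pow 2 q))))
          (Nat.mod (Nat.div N 2) (Nat.pow 2 q)) (Nat.mod (Nat.shiftRight N (q + 1)) (Nat.pow 2 q))
          (Nat.mod (Nat.shiftRight N (2 * q + 1)) (Nat.pow 2 q)) &&
        run n q f (Nat.shiftRight N (3 * q + 1))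
          (nw n M (row n M (Nat.mod (Nat.div N 2) (Nat.pow 2 q)))
            (Nat.mod (Nat.div N 2) (Nat.pow 2 q)) (Nat.mod (Nat.shiftRight N (q + 1)) (Nat.pow 2 q))
            (Nat.mod (Nat.shiftRight N (2 * q + 1)) (Nat.pow 2 q)))
          (Nat.xor a (Nat.pow 2 (Nat.mod (Nat.div N 2) (Nat.pow 2 q)))) M' a')

theorem run_good {k n q : ℕ} (f : ℕ) : ∀ (N M a M' a' : ℕ), Good k n M a → run n q f N M a M' a' = true →
    Good k n M' a' := by
  induction f with
  | zero =>
    intro N M a M' a' hG h
    rw [run, Bool.and_eq_true, Nat.beq_eq, Nat.beq_eq] at h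
    rw [← h.1, ← h.2]
    exact hG
  | succ f ih =>
    intro N M a M' a' hG h
    rw [run] at h
    generalize (N.div 2).mod (Nat.pow 2 q) = m at h
    generalize (N.shiftRight (q + 1)).mod (Nat.pow 2 q) = s at h
    generalize (N.shiftRight (2 * q + 1)).mod (Nat.pow 2 q) = t at h
    cases hc : (N.mod 2).beq 0 with
    | true =>
      rw [hc, cond_true, Bool.and_eq_true] at h
      exact ih _ _ _ _ _ ((ckS_sb hG.lt h.1).good hG) h.2
    | false =>
      rw [hc, cond_false, Bool.and_eq_true] at h
      obtain ⟨h1, h2, h3⟩ := ckI_sb hG.lt hG.sy h.1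
      rw [← h1] at hG
      exact ih _ _ _ _ _ (h2.good_back h3 hG) h.2

end Pool.Agent.Run7.h308.LT.Chk
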