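import Pool.Agent.Run7.h308.LT.Chk

/-!
# The octahedral sphere, and the graph at the end of a run
-/

set_option autoImplicit false

noncomputable section

namespace Pool.Agent.Run7.h308.LT.Chk

open Pool.Agent.Run7.h308.LT.Mv
open Pool.Agent.W907.SM (lk)
open Pool.Agent.TH652.Above (HSph)
open Pool.Agent.N496.LT.E1P
open Pool.Agent.R782.Bal

/-! ### the octahedral sphere -/

/-- the rows of the octahedral graph -/
def ckO (k n M : ℕ) : Bool :=
  Nat.ble (2 * k) n && (List.range (2 * k)).all fun u =>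
    Nat.beq (Nat.mod (row n M u) (Nat.pow 2 (2 * k)))
      (Nat.xor (Nat.sub (Nat.pow 2 (2 * k)) 1) (Nat.shiftLeft 3 (Nat.mul 2 (Nat.div u 2))))

theorem ckO_bit {k n M : ℕ} (h : ckO k n M = true) : 2 * k ≤ n ∧ ∀ u v, u < 2 * k → v < 2 * k →
    M.testBit (u * (n + 1) + v) = decide (u / 2 ≠ v / 2) := by
  unfold ckO at h
  rw [Bool.and_eq_true, Nat.ble_eq, List.all_eq_true] at h
  refine ⟨h.1, fun u v hu hv => ?_⟩
  have h1 := h.2 u (List.mem_range.2 hu)
  rw [Nat.beq_eq] at h1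
  have h2 : row n M u % 2 ^ (2 * k) = (2 ^ (2 * k) - 1) ^^^ (3 <<< (2 * (u / 2))) := h1
  have h3 := congrArg (fun x : ℕ => x.testBit v) h2
  simp only [Nat.testBit_mod_two_pow, testBit_row, Nat.testBit_xor, Nat.testBit_two_pow_sub_one,
    Nat.testBit_shiftLeft] at h3
  rw [decide_eq_true hv, decide_eq_true (by omega : v < n), Bool.true_and, Bool.true_and, Bool.true_xor] at h3
  rw [h3]
  have h4 : ∀ j, (3 : ℕ).testBit j = decide (j < 2) := fun j => Nat.testBit_two_pow_sub_one 2 j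
  rw [h4, ← Bool.decide_and, ← decide_not]
  refine decide_eq_decide.2 ?_
  constructor <;> intro h5 <;> omega

theorem oct_hs {k n M : ℕ} (h : ckO k n M = true) (j : ℕ) (hj : j ≤ k) :
    HS j (gr n M) {v : Fin n | (v : ℕ) < 2 * j} := by
  obtain ⟨hn, hb⟩ := ckO_bit h
  induction j with
  | zero =>
    have h1 : {v : Fin n | (v : ℕ) < 2 * 0} = ∅ := by
      ext v
      simp
    rw [h1]
    exact hs_empty _
  | succ j ih =>
    have ih := ih (by omega)
    have h1 : {v : Fin n | (v : ℕ) < 2 * (j + 1)} =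
        insert ⟨2 * j, by omega⟩ (insert ⟨2 * j + 1, by omega⟩ {v : Fin n | (v : ℕ) < 2 * j}) := by
      ext v
      show (v : ℕ) < 2 * (j + 1) ↔ v = _ ∨ v = _ ∨ (v : ℕ) < 2 * j
      rw [Fin.ext_iff, Fin.ext_iff]
      show (v : ℕ) < 2 * (j + 1) ↔ (v : ℕ) = 2 * j ∨ (v : ℕ) = 2 * j + 1 ∨ (v : ℕ) < 2 * j
      omega
    rw [h1]
    refine hs_susp ?_ ?_ ?_ ?_ ?_ ?_ ih
    · intro h2
      have h2 : 2 * j < 2 * j := h2
      omega
    · intro h2
      have h2 : 2 * j + 1 < 2 * j := h2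
      omega
    · rw [Ne, Fin.ext_iff]
      show ¬ (2 * j = 2 * j + 1)
      omega
    · rintro ⟨-, h2, -⟩
      have h2 : M.testBit (2 * j * (n + 1) + (2 * j + 1)) = true := h2
      rw [hb _ _ (by omega) (by omega), decide_eq_true_eq] at h2
      omega
    · intro a ha
      have ha : (a : ℕ) < 2 * j := ha
      refine ⟨?_, ?_, ?_⟩
      · rw [Ne, Fin.ext_iff]
        show ¬ (2 * j = (a : ℕ))
        omega
      · show M.testBit (2 * j * (n + 1) + (a : ℕ)) = true
        rw [hb _ _ (by omega) (by omega), decide_eq_true_eq]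
        omega
      · show M.testBit ((a : ℕ) * (n + 1) + 2 * j) = true
        rw [hb _ _ (by omega) (by omega), decide_eq_true_eq]
        omega
    · intro a ha
      have ha : (a : ℕ) < 2 * j := ha
      refine ⟨?_, ?_, ?_⟩
      · rw [Ne, Fin.ext_iff]
        show ¬ (2 * j + 1 = (a : ℕ))
        omega
      · show M.testBit ((2 * j + 1) * (n + 1) + (a : ℕ)) = true
        rw [hb _ _ (by omega) (by omega), decide_eq_true_eq]
        omega
      · show M.testBit ((a : ℕ) * (n + 1) + (2 * j + 1)) = true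
        rw [hb _ _ (by omega) (by omega), decide_eq_true_eq]
        omega

/-- the signed coordinates -/
def yy (k n : ℕ) (hn : 2 * k ≤ n) (x : Fin n → ℝ) : EuclideanSpace ℝ (Fin k) :=
  WithLp.toLp 2 fun i : Fin k => x ⟨2 * i, by have := i.2; omega⟩ - x ⟨2 * i + 1, by have := i.2; omega⟩

theorem yy_cont (k n : ℕ) (hn : 2 * k ≤ n) : Continuous (yy k n hn) := by
  unfold yy
  refine (PiLp.continuous_toLp 2 _).comp (continuous_pi fun i => ?_)
  fun_prop

theorem oct_em {k n M : ℕ} (h : ckO k n M = true) : EmA k (gr n M) {v : Fin n | (v : ℕ) < 2 * k} := by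
  obtain ⟨hn, hb⟩ := ckO_bit h
  have hz : ∀ x ∈ ReA (gr n M) {v : Fin n | (v : ℕ) < 2 * k}, ∀ i : Fin k,
      x ⟨2 * i, by have := i.2; omega⟩ = 0 ∨ x ⟨2 * i + 1, by have := i.2; omega⟩ = 0 := by
    intro x hx i
    by_contra hcon
    push Not at hcon
    have h1 := hx.2.2.1 (x := ⟨2 * i, by have := i.2; omega⟩) hcon.1 (y := ⟨2 * i + 1, by have := i.2; omega⟩)
      hcon.2 (by
        rw [Ne, Fin.ext_iff]
        show ¬ (2 * (i : ℕ) = 2 * (i : ℕ) + 1)
        omega)
    have h2 : M.testBit (2 * (i : ℕ) * (n + 1) + (2 * (i : ℕ) + 1)) = true := h1.2.1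
    have := i.2
    rw [hb _ _ (by omega) (by omega), decide_eq_true_eq] at h2
    omega
  have hy : ∀ x ∈ ReA (gr n M) {v : Fin n | (v : ℕ) < 2 * k}, yy k n hn x ≠ 0 := by
    intro x hx h0
    have h1 : ∀ v, x v = 0 := by
      intro v
      by_cases hv : (v : ℕ) < 2 * k
      · have h2 : x ⟨2 * ((v : ℕ) / 2), by omega⟩ - x ⟨2 * ((v : ℕ) / 2) + 1, by omega⟩ = 0 :=
          congrArg (fun z : EuclideanSpace ℝ (Fin k) => z ⟨(v : ℕ) / 2, by omega⟩) h0
        have h3 := hz x hx ⟨(v : ℕ) / 2, by omega⟩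
        have h4 : x ⟨2 * ((v : ℕ) / 2), by omega⟩ = 0 ∧ x ⟨2 * ((v : ℕ) / 2) + 1, by omega⟩ = 0 := by
          rcases h3 with h3 | h3
          · have h3 : x ⟨2 * ((v : ℕ) / 2), by omega⟩ = 0 := h3
            rw [h3] at h2 ⊢
            exact ⟨rfl, by linarith⟩
          · have h3 : x ⟨2 * ((v : ℕ) / 2) + 1, by omega⟩ = 0 := h3
            rw [h3] at h2 ⊢
            exact ⟨by linarith, rfl⟩
        rcases Nat.mod_two_eq_zero_or_one (v : ℕ) with h5 | h5
        · have h6 : v = ⟨2 * ((v : ℕ) / 2), by omega⟩ := Fin.ext (by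
            show (v : ℕ) = 2 * ((v : ℕ) / 2)
            omega)
          rw [h6]
          exact h4.1
        · have h6 : v = ⟨2 * ((v : ℕ) / 2) + 1, by omega⟩ := Fin.ext (by
            show (v : ℕ) = 2 * ((v : ℕ) / 2) + 1
            omega)
          rw [h6]
          exact h4.2
      · by_contra hne
        exact hv (hx.2.2.2 hne)
    have h2 := hx.2.1
    rw [Finset.sum_eq_zero fun v _ => h1 v] at h2
    exact zero_ne_one h2
  refine ⟨fun x => ‖yy k n hn x‖⁻¹ • yy k n hn x, ?_, ?_, ?_⟩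
  · refine ContinuousOn.smul (ContinuousOn.inv₀ (yy_cont k n hn).norm.continuousOn fun x hx => ?_)
      (yy_cont k n hn).continuousOn
    exact norm_ne_zero_iff.2 (hy x hx)
  · intro x hx
    rw [norm_smul, norm_inv, norm_norm]
    exact inv_mul_cancel₀ (norm_ne_zero_iff.2 (hy x hx))
  · intro x hx x' hx' he
    have he : ‖yy k n hn x‖⁻¹ • yy k n hn x = ‖yy k n hn x'‖⁻¹ • yy k n hn x' := he
    obtain ⟨c, hc0, hc⟩ : ∃ c : ℝ, 0 < c ∧ yy k n hn x = c • yy k n hn x' := by
      have p1 := norm_pos_iff.2 (hy x hx)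
      have p2 := norm_pos_iff.2 (hy x' hx')
      refine ⟨‖yy k n hn x‖ * ‖yy k n hn x'‖⁻¹, by positivity, ?_⟩
      rw [mul_smul, ← he, smul_smul, mul_inv_cancel₀ p1.ne', one_smul]
    have h1 : ∀ v, x v = c * x' v := by
      intro v
      by_cases hv : (v : ℕ) < 2 * k
      · have h2 : x ⟨2 * ((v : ℕ) / 2), by omega⟩ - x ⟨2 * ((v : ℕ) / 2) + 1, by omega⟩ =
            c * (x' ⟨2 * ((v : ℕ) / 2), by omega⟩ - x' ⟨2 * ((v : ℕ) / 2) + 1, by omega⟩) :=
          congrArg (fun z : EuclideanSpace ℝ (Fin k) => z ⟨(v : ℕ) / 2, by omega⟩) hc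
        have h3 : x ⟨2 * ((v : ℕ) / 2), by omega⟩ = 0 ∨ x ⟨2 * ((v : ℕ) / 2) + 1, by omega⟩ = 0 :=
          hz x hx ⟨(v : ℕ) / 2, by omega⟩
        have h3' : x' ⟨2 * ((v : ℕ) / 2), by omega⟩ = 0 ∨ x' ⟨2 * ((v : ℕ) / 2) + 1, by omega⟩ = 0 :=
          hz x' hx' ⟨(v : ℕ) / 2, by omega⟩
        have p1 := hx.1 ⟨2 * ((v : ℕ) / 2), by omega⟩
        have p2 := hx.1 ⟨2 * ((v : ℕ) / 2) + 1, by omega⟩
        have p3 := hx'.1 ⟨2 * ((v : ℕ) / 2), by omega⟩
        have p4 := hx'.1 ⟨2 * ((v : ℕ) / 2) + 1, by omega⟩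
        have h4 : x ⟨2 * ((v : ℕ) / 2), by omega⟩ = c * x' ⟨2 * ((v : ℕ) / 2), by omega⟩ ∧
            x ⟨2 * ((v : ℕ) / 2) + 1, by omega⟩ = c * x' ⟨2 * ((v : ℕ) / 2) + 1, by omega⟩ := by
          generalize x ⟨2 * ((v : ℕ) / 2), by omega⟩ = a1 at h2 h3 p1 ⊢
          generalize x ⟨2 * ((v : ℕ) / 2) + 1, by omega⟩ = a2 at h2 h3 p2 ⊢
          generalize x' ⟨2 * ((v : ℕ) / 2), by omega⟩ = b1 at h2 h3' p3 ⊢
          generalize x' ⟨2 * ((v : ℕ) / 2) + 1, by omega⟩ = b2 at h2 h3' p4 ⊢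
          have q3 := mul_nonneg hc0.le p3
          have q4 := mul_nonneg hc0.le p4
          rcases h3 with h3 | h3 <;> rcases h3' with h3' | h3' <;> subst h3 <;> subst h3' <;>
            constructor <;> nlinarith
        rcases Nat.mod_two_eq_zero_or_one (v : ℕ) with h5 | h5
        · have h6 : v = ⟨2 * ((v : ℕ) / 2), by omega⟩ := Fin.ext (by
            show (v : ℕ) = 2 * ((v : ℕ) / 2)
            omega)
          rw [h6]
          exact h4.1
        · have h6 : v = ⟨2 * ((v : ℕ) / 2) + 1, by omega⟩ := Fin.ext (by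
            show (v : ℕ) = 2 * ((v : ℕ) / 2) + 1
            omega)
          rw [h6]
          exact h4.2
      · have e1 : x v = 0 := by
          by_contra hne
          exact hv (hx.2.2.2 hne)
        have e2 : x' v = 0 := by
          by_contra hne
          exact hv (hx'.2.2.2 hne)
        rw [e1, e2, mul_zero]
    have h2 : c = 1 := by
      have e1 := hx.2.1
      rw [Finset.sum_congr rfl fun v _ => h1 v, ← Finset.mul_sum, hx'.2.1, mul_one] at e1
      exact e1
    funext v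
    rw [h1 v, h2, one_mul]

theorem al_pow {n N : ℕ} : al n (2 ^ N - 1) = {v : Fin n | (v : ℕ) < N} := by
  ext v
  show (2 ^ N - 1).testBit v = true ↔ (v : ℕ) < N
  rw [Nat.testBit_two_pow_sub_one, decide_eq_true_eq]

theorem oct_good {k n M : ℕ} (h : ckO k n M = true) : Good k n M (2 ^ (2 * k) - 1) where
  lt i hi := by
    rw [Nat.testBit_two_pow_sub_one, decide_eq_true_eq] at hi
    have := (ckO_bit h).1
    omega
  sy u v hu hv := by
    rw [Nat.testBit_two_pow_sub_one, decide_eq_true_eq] at hu hv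
    rw [(ckO_bit h).2 u v hu hv, (ckO_bit h).2 v u hv hu]
    exact decide_eq_decide.2 ne_comm
  hs := by
    rw [al_pow]
    exact oct_hs h k le_rfl
  em := by
    rw [al_pow]
    exact oct_em h

/-! ### the end -/

/-- the graph at the end -/
def fin (n M N : ℕ) : SimpleGraph (Fin N) where
  Adj u v := u ≠ v ∧ M.testBit (u * (n + 1) + v) = true ∧ M.testBit (v * (n + 1) + u) = true
  symm := ⟨fun _ _ h => ⟨h.1.symm, h.2.2, h.2.1⟩⟩
  loopless := ⟨fun _ h => h.1 rfl⟩

theorem fin_main {k n M N : ℕ} (hN : N ≤ n) (hG : Good k n M (2 ^ N - 1)) : HSph k (fin n M N) ∧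
    ∃ f : (Fin N → ℝ) → EuclideanSpace ℝ (Fin k), ContinuousOn f (Rea (fin n M N)) ∧
      (∀ x ∈ Rea (fin n M N), ‖f x‖ = 1) ∧ Set.InjOn f (Rea (fin n M N)) := by
  classical
  have hadj : ∀ u v : Fin N, (fin n M N).Adj u v ↔ (gr n M).Adj (Fin.castLE hN u) (Fin.castLE hN v) := by
    intro u v
    show (u ≠ v ∧ _) ↔ (Fin.castLE hN u ≠ Fin.castLE hN v ∧ _)
    rw [ne_eq, ne_eq, (Fin.castLE_injective hN).eq_iff]
    rfl
  have hrange : al n (2 ^ N - 1) = Set.range (Fin.castLE hN) := by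
    rw [al_pow]
    ext v
    constructor
    · intro hv
      exact ⟨⟨v, hv⟩, rfl⟩
    · rintro ⟨u, rfl⟩
      exact u.2
  refine ⟨?_, ?_⟩
  · rw [← hs_univ]
    intro S hS _ i
    have h1 := hG.hs (S.map (Fin.castLEEmb hN)) (by
      intro a ha b hb hab
      rw [Finset.mem_coe, Finset.mem_map] at ha hb
      obtain ⟨a', ha', rfl⟩ := ha
      obtain ⟨b', hb', rfl⟩ := hb
      exact (hadj a' b').1 (hS ha' hb' fun e => hab (by rw [e]))) (by
      intro a ha
      rw [Finset.mem_coe, Finset.mem_map] at ha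
      obtain ⟨a', ha', rfl⟩ := ha
      rw [hrange]
      exact ⟨a', rfl⟩) i
    rw [Finset.card_map] at h1
    rw [← h1]
    have h2 : al n (2 ^ N - 1) ∩ lk (gr n M) (S.map (Fin.castLEEmb hN)) =
        Fin.castLE hN '' (Set.univ ∩ lk (fin n M N) S) := by
      rw [hrange]
      ext a
      constructor
      · rintro ⟨⟨a', rfl⟩, h3⟩
        refine ⟨a', ⟨Set.mem_univ _, fun u hu => ?_⟩, rfl⟩
        exact (hadj a' u).2 (h3 _ (Finset.mem_map.2 ⟨u, hu, rfl⟩))
      · rintro ⟨a', ⟨-, h3⟩, rfl⟩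
        refine ⟨⟨a', rfl⟩, fun u hu => ?_⟩
        obtain ⟨u', hu', rfl⟩ := Finset.mem_map.1 hu
        exact (hadj a' u').1 (h3 u' hu')
    rw [h2]
    exact (bb_tr (Fin.castLE hN) (Fin.strictMono_castLE hN) _ (fun u _ u' _ => hadj u u') i).symm
  · have h1 : EmA k (fin n M N) Set.univ := by
      refine hG.em.of_map (fun x v => if h : (v : ℕ) < N then x ⟨v, h⟩ else 0) ?_ ?_ ?_
      · refine continuous_pi fun v => ?_
        by_cases h : (v : ℕ) < N
        · simp only [dif_pos h]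
          exact continuous_apply _
        · simp only [dif_neg h]
          exact continuous_const
      · rintro x ⟨h1, h2, h3, -⟩
        have hne : ∀ v : Fin n, (if h : (v : ℕ) < N then x ⟨v, h⟩ else 0) ≠ 0 →
            ∃ h : (v : ℕ) < N, x ⟨v, h⟩ ≠ 0 := by
          intro v hv
          by_cases h : (v : ℕ) < N
          · rw [dif_pos h] at hv
            exact ⟨h, hv⟩
          · rw [dif_neg h] at hv
            exact absurd rfl hv
        refine ⟨fun v => ?_, ?_, ?_, ?_⟩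
        · dsimp only
          split_ifs with h
          · exact h1 _
          · exact le_rfl
        · rw [← h2, ← Finset.sum_subset (Finset.subset_univ (Finset.univ.map (Fin.castLEEmb hN))) (fun v _ hv => ?_)]
          · rw [Finset.sum_map]
            refine Finset.sum_congr rfl fun u _ => ?_
            show (if h : ((Fin.castLE hN u : Fin n) : ℕ) < N then x ⟨_, h⟩ else 0) = x u
            rw [dif_pos (show ((Fin.castLE hN u : Fin n) : ℕ) < N from u.2)]
            rfl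
          · rw [dif_neg]
            intro h
            exact hv (Finset.mem_map.2 ⟨⟨v, h⟩, Finset.mem_univ _, rfl⟩)
        · intro u hu v hv huv
          obtain ⟨hu1, hu2⟩ := hne u hu
          obtain ⟨hv1, hv2⟩ := hne v hv
          exact (hadj ⟨u, hu1⟩ ⟨v, hv1⟩).1 (h3 hu2 hv2 fun e => huv (Fin.ext (congrArg Fin.val e :)))
        · intro v hv
          rw [al_pow]
          exact (hne v hv).1
      · intro x _ y _ hxy
        funext u
        have h2 := congrFun hxy (Fin.castLE hN u)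
        dsimp only at h2
        rw [dif_pos (show ((Fin.castLE hN u : Fin n) : ℕ) < N from u.2),
          dif_pos (show ((Fin.castLE hN u : Fin n) : ℕ) < N from u.2)] at h2
        exact h2
    obtain ⟨f, h2, h3, h4⟩ := h1
    rw [reA_univ] at h2 h3 h4
    exact ⟨f, h2, h3, h4⟩

end Pool.Agent.Run7.h308.LT.Chk
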