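import Pool.Agent.N496.LT.E1

/-!
# Flag homology spheres: edge subdivisions, inverse edge subdivisions and suspensions with arbitrary labels

`HS k G A`: the flag complex of the graph induced by `G` on `A` is a real homology manifold with the homology of the
`(k - 1)`-sphere.
-/

set_option autoImplicit false
set_option linter.unusedSectionVars false
set_option linter.unusedVariables false

noncomputable section

namespace Pool.Agent.Run7.h308.LT.Mv

open Module Pool.Agent.W907.SG
open Pool.Agent.W907.SM (lk)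
open Pool.Agent.TH652.Above (HSph)
open Pool.Agent.N496.LT.E1P

variable {V : Type} [Fintype V] [LinearOrder V]

/-- homology spheres on a set of vertices -/
def HS (k : ℕ) (G : SimpleGraph V) (A : Set V) : Prop :=
  ∀ S : Finset V, G.IsClique (S : Set V) → (S : Set V) ⊆ A → ∀ i : ℕ,
    bb G (A ∩ lk G S) i = if i + S.card = k then 1 else 0

theorem hs_univ (k : ℕ) (G : SimpleGraph V) : HS k G Set.univ ↔ HSph k G := by
  unfold HS HSph bb
  simp only [Set.univ_inter, Set.subset_univ, forall_true_left]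

theorem bb0 {G : SimpleGraph V} {A : Set V} {v : V} (hv : v ∈ A) : bb G A 0 = 0 := by
  classical
  have key : ∀ F : Finset V, bb G (insert v (F : Set V)) 0 = 0 := by
    intro F
    induction F using Finset.induction_on with
    | empty =>
      exact bb_cone (u := v) (Set.mem_insert _ _) (fun w hw hwv => absurd (by simpa using hw) hwv) 0
    | insert a F _ ih =>
      by_cases ha : a ∈ insert v (F : Set V)
      · rw [Finset.coe_insert, Set.insert_comm, Set.insert_eq_of_mem ha, ih]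
      · have h1 := bb_vert0 (G := G) ha
        rw [ih] at h1
        rw [Finset.coe_insert, Set.insert_comm]
        omega
  have h1 := key (A.toFinite.toFinset)
  rwa [Set.Finite.coe_toFinset, Set.insert_eq_of_mem hv] at h1

theorem no_big {k : ℕ} {G : SimpleGraph V} {A : Set V} (hG : HS k G A) {T : Finset V}
    (hT : G.IsClique (T : Set V)) (hTA : (T : Set V) ⊆ A) : T.card ≤ k := by
  by_contra hn
  push Not at hn
  obtain ⟨T', hT', hc'⟩ := Finset.exists_subset_card_eq (Nat.succ_le_of_lt hn)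
  have hcl : G.IsClique (T' : Set V) := hT.subset (by exact_mod_cast hT')
  have hTA' : (T' : Set V) ⊆ A := fun x hx => hTA (hT' hx)
  obtain ⟨v, hv⟩ : T'.Nonempty := Finset.card_pos.1 (by omega)
  have h1 := hG (T'.erase v) (hcl.subset (by exact_mod_cast Finset.erase_subset v T'))
    (fun x hx => hTA' (Finset.mem_of_mem_erase hx)) 0
  rw [Finset.card_erase_of_mem hv, hc'] at h1
  rw [if_pos (by omega)] at h1
  have hvl : v ∈ A ∩ lk G (T'.erase v) := ⟨hTA' hv, fun u hu =>
    hcl hv (Finset.mem_coe.2 (Finset.mem_of_mem_erase hu)) (Finset.ne_of_mem_erase hu).symm⟩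
  rw [bb0 hvl] at h1
  exact absurd h1 (by norm_num)

/-- `G'` on `insert m A` is obtained from `G` on `A` by the subdivision of the edge `s t` with the new vertex `m` -/
structure Sd (G G' : SimpleGraph V) (A : Set V) (m s t : V) : Prop where
  hm : m ∉ A
  hs : s ∈ A
  ht : t ∈ A
  hst : G.Adj s t
  cc : ∀ a ∈ A, ∀ b ∈ A, G'.Adj a b ↔ G.Adj a b ∧ s(a, b) ≠ s(s, t)
  mc : ∀ b ∈ A, G'.Adj m b ↔ b = s ∨ b = t ∨ (G.Adj s b ∧ G.Adj t b)

/-- the neighbours of the new vertex -/
def Md (G : SimpleGraph V) (s t b : V) : Prop := b = s ∨ b = t ∨ (G.Adj s b ∧ G.Adj t b)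

omit [Fintype V] [LinearOrder V] in
theorem md_comm {G : SimpleGraph V} {s t : V} (b : V) : Md G s t b ↔ Md G t s b := by
  unfold Md
  tauto

section sd

variable {G G' : SimpleGraph V} {A : Set V} {m s t : V} {k : ℕ}

omit [Fintype V] [LinearOrder V] in
theorem Sd.symm (h : Sd G G' A m s t) : Sd G G' A m t s where
  hm := h.hm
  hs := h.ht
  ht := h.hs
  hst := h.hst.symm
  cc a ha b hb := by rw [h.cc a ha b hb, Sym2.eq_swap (a := t)]
  mc b hb := by
    rw [h.mc b hb]
    tauto

omit [Fintype V] [LinearOrder V] in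
theorem Sd.ns (h : Sd G G' A m s t) : ¬ G'.Adj s t := by
  rw [h.cc s h.hs t h.ht]
  exact fun h => h.2 rfl

/-- the graph with the edge `s t` -/
def gg (G' : SimpleGraph V) (s t : V) : SimpleGraph V := G' ⊔ SimpleGraph.edge s t

omit [Fintype V] [LinearOrder V] in
theorem gg_cc (h : Sd G G' A m s t) {a b : V} (ha : a ∈ A) (hb : b ∈ A) :
    (gg G' s t).Adj a b ↔ G.Adj a b := by
  unfold gg
  rw [SimpleGraph.sup_adj, h.cc a ha b hb, SimpleGraph.edge_adj]
  constructor
  · rintro (h1 | ⟨⟨h1, h2⟩ | ⟨h1, h2⟩, -⟩)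
    · exact h1.1
    · rw [h1, h2]
      exact h.hst
    · rw [h1, h2]
      exact h.hst.symm
  · intro h1
    by_cases h2 : s(a, b) = s(s, t)
    · right
      refine ⟨?_, h1.ne⟩
      rw [Sym2.eq_iff] at h2
      rcases h2 with ⟨h2, h3⟩ | ⟨h2, h3⟩
      · left
        exact ⟨h2, h3⟩
      · right
        exact ⟨h2, h3⟩
    · exact Or.inl ⟨h1, h2⟩

omit [Fintype V] [LinearOrder V] in
theorem gg_mc (h : Sd G G' A m s t) {b : V} (hb : b ∈ A) : (gg G' s t).Adj m b ↔ Md G s t b := by
  unfold gg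
  rw [SimpleGraph.sup_adj, h.mc b hb, SimpleGraph.edge_adj]
  constructor
  · rintro (h1 | ⟨⟨h1, h2⟩ | ⟨h1, h2⟩, -⟩)
    · exact h1
    · exact absurd (h1 ▸ h.hs) h.hm
    · exact absurd (h1 ▸ h.ht) h.hm
  · exact Or.inl

omit [Fintype V] [LinearOrder V] in
theorem gg_del (h : Sd G G' A m s t) : (gg G' s t).deleteEdges {s(s, t)} = G' := by
  ext x y
  rw [SimpleGraph.deleteEdges_adj, Set.mem_singleton_iff]
  unfold gg
  rw [SimpleGraph.sup_adj, SimpleGraph.edge_adj]
  constructor
  · rintro ⟨h1 | ⟨⟨h1, h2⟩ | ⟨h1, h2⟩, -⟩, h3⟩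
    · exact h1
    · exact absurd (by rw [h1, h2]) h3
    · exact absurd (by rw [h1, h2, Sym2.eq_swap]) h3
  · intro h1
    refine ⟨Or.inl h1, fun h2 => ?_⟩
    rw [Sym2.eq_iff] at h2
    rcases h2 with ⟨h2, h3⟩ | ⟨h2, h3⟩
    · rw [h2, h3] at h1
      exact h.ns h1
    · rw [h2, h3] at h1
      exact h.ns h1.symm

section cases

variable {S : Finset V} (h : Sd G G' A m s t)

include h

/-- link, vertices of `A` -/
theorem lk_a (hSA : (S : Set V) ⊆ insert m A) {a : V} (ha : a ∈ A) : a ∈ lk G' S ↔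
    (∀ u ∈ S.erase m, G.Adj a u ∧ s(a, u) ≠ s(s, t)) ∧ (m ∈ S → Md G s t a) := by
  have hu' : ∀ u ∈ S.erase m, u ∈ A := fun u hu =>
    (hSA (Finset.mem_of_mem_erase hu)).resolve_left (Finset.ne_of_mem_erase hu)
  constructor
  · intro h1
    refine ⟨fun u hu => (h.cc a ha u (hu' u hu)).1 (h1 u (Finset.mem_of_mem_erase hu)), fun hm => ?_⟩
    exact (h.mc a ha).1 (h1 m hm).symm
  · rintro ⟨h1, h2⟩ v hv
    by_cases hvm : v = m
    · rw [hvm] at hv ⊢
      exact ((h.mc a ha).2 (h2 hv)).symm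
    · have hv' := Finset.mem_erase.2 ⟨hvm, hv⟩
      exact (h.cc a ha v (hu' v hv')).2 (h1 v hv')

/-- link, the new vertex -/
theorem lk_m (hSA : (S : Set V) ⊆ insert m A) : m ∈ lk G' S ↔ m ∉ S ∧ ∀ u ∈ S, Md G s t u := by
  constructor
  · intro h1
    have hmS : m ∉ S := fun hm => G'.loopless.irrefl _ (h1 m hm)
    refine ⟨hmS, fun u hu => ?_⟩
    have hu' : u ∈ A := (hSA hu).resolve_left (fun e => hmS (e ▸ hu))
    exact (h.mc u hu').1 (h1 u hu)
  · rintro ⟨h1, h2⟩ v hv
    have hv' : v ∈ A := (hSA hv).resolve_left (fun e => h1 (e ▸ hv))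
    exact (h.mc v hv').2 (h2 v hv)

/-- the new vertex and one end -/
theorem caseA1 (hSA : (S : Set V) ⊆ insert m A) (hm : m ∈ S) (hs : s ∈ S) (i : ℕ) :
    bb G' (insert m A ∩ lk G' S) i = bb G (A ∩ lk G (insert t (S.erase m))) i := by
  classical
  have hsm : s ≠ m := fun e => h.hm (e ▸ h.hs)
  have hset : insert m A ∩ lk G' S = A ∩ lk G (insert t (S.erase m)) := by
    ext a
    constructor
    · rintro ⟨h1, h2⟩
      have haA : a ∈ A := by
        rcases h1 with h1 | h1
        · rw [h1] at h2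
          exact absurd hm (((lk_m h hSA).1 h2).1)
        · exact h1
      refine ⟨haA, fun u hu => ?_⟩
      have h3 := (lk_a h hSA haA).1 h2
      rcases Finset.mem_insert.1 hu with rfl | hu
      · rcases h3.2 hm with h4 | h4 | h4
        · exact absurd (h3.1 s (Finset.mem_erase.2 ⟨hsm, hs⟩)).1 (by rw [h4]; exact G.loopless.irrefl _)
        · exact absurd (by rw [h4, Sym2.eq_swap]) (h3.1 s (Finset.mem_erase.2 ⟨hsm, hs⟩)).2
        · exact h4.2.symm
      · exact (h3.1 u hu).1
    · rintro ⟨haA, h2⟩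
      refine ⟨Or.inr haA, (lk_a h hSA haA).2 ?_⟩
      have h3 : G.Adj a t := h2 t (Finset.mem_insert_self _ _)
      have h4 : G.Adj a s := h2 s (Finset.mem_insert_of_mem (Finset.mem_erase.2 ⟨hsm, hs⟩))
      refine ⟨fun u hu => ⟨h2 u (Finset.mem_insert_of_mem hu), fun h5 => ?_⟩, fun _ =>
        Or.inr (Or.inr ⟨h4.symm, h3.symm⟩)⟩
      rw [Sym2.eq_iff] at h5
      rcases h5 with ⟨h5, -⟩ | ⟨h5, -⟩
      · exact h4.ne h5
      · exact h3.ne h5
  rw [hset]
  refine bb_congr (fun u hu v hv => ?_) i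
  rw [h.cc u hu.1 v hv.1]
  have h3 : G.Adj u t := hu.2 t (Finset.mem_insert_self _ _)
  have h4 : G.Adj u s := hu.2 s (Finset.mem_insert_of_mem (Finset.mem_erase.2 ⟨hsm, hs⟩))
  refine ⟨fun h => h.1, fun h => ⟨h, fun h5 => ?_⟩⟩
  rw [Sym2.eq_iff] at h5
  rcases h5 with ⟨h5, -⟩ | ⟨h5, -⟩
  · exact h4.ne h5
  · exact h3.ne h5

/-- the new vertex and no end -/
theorem caseA3 (hSA : (S : Set V) ⊆ insert m A) (hm : m ∈ S) (hs : s ∉ S) (ht : t ∉ S)
    (hM : ∀ u ∈ S.erase m, Md G s t u) :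
    bb G' (insert m A ∩ lk G' S) 0 = 0 ∧
    ∀ i, bb G' (insert m A ∩ lk G' S) (i + 1) = bb G (A ∩ lk G (insert s (insert t (S.erase m)))) i := by
  classical
  have hM' : ∀ u ∈ S.erase m, G.Adj s u ∧ G.Adj t u := by
    intro u hu
    rcases hM u hu with h1 | h1 | h1
    · exact absurd (h1 ▸ Finset.mem_of_mem_erase hu) hs
    · exact absurd (h1 ▸ Finset.mem_of_mem_erase hu) ht
    · exact h1
  set T := insert s (insert t (S.erase m)) with hT
  have hTs : ∀ a ∈ lk G T, G.Adj a s := fun a ha => ha s (Finset.mem_insert_self _ _)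
  have hTt : ∀ a ∈ lk G T, G.Adj a t := fun a ha =>
    ha t (Finset.mem_insert_of_mem (Finset.mem_insert_self _ _))
  have hlk : ∀ a ∈ A, a ∈ lk G' S ↔ a = s ∨ a = t ∨ a ∈ lk G T := by
    intro a ha
    rw [lk_a h hSA ha]
    constructor
    · rintro ⟨h1, h2⟩
      rcases h2 hm with h3 | h3 | h3
      · exact Or.inl h3
      · exact Or.inr (Or.inl h3)
      · refine Or.inr (Or.inr fun u hu => ?_)
        rw [hT, Finset.mem_insert, Finset.mem_insert] at hu
        rcases hu with rfl | rfl | hu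
        · exact h3.1.symm
        · exact h3.2.symm
        · exact (h1 u hu).1
    · have hne : ∀ u ∈ S.erase m, s(a, u) ≠ s(s, t) := by
        intro u hu h3
        rw [Sym2.eq_iff] at h3
        rcases h3 with ⟨-, h3⟩ | ⟨-, h3⟩
        · exact ht (h3 ▸ Finset.mem_of_mem_erase hu)
        · exact hs (h3 ▸ Finset.mem_of_mem_erase hu)
      rintro (h1 | h1 | h1)
      · refine ⟨fun u hu => ⟨?_, hne u hu⟩, fun _ => Or.inl h1⟩
        rw [h1]
        exact (hM' u hu).1
      · refine ⟨fun u hu => ⟨?_, hne u hu⟩, fun _ => Or.inr (Or.inl h1)⟩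
        rw [h1]
        exact (hM' u hu).2
      · refine ⟨fun u hu => ⟨?_, hne u hu⟩, fun _ =>
          Or.inr (Or.inr ⟨(hTs a h1).symm, (hTt a h1).symm⟩)⟩
        exact h1 u (Finset.mem_insert_of_mem (Finset.mem_insert_of_mem hu))
  have hmn : m ∉ lk G' S := fun h1 => ((lk_m h hSA).1 h1).1 hm
  have hmem : ∀ a, a ∈ insert m A ∩ lk G' S ↔ a ∈ A ∧ (a = s ∨ a = t ∨ a ∈ lk G T) := by
    intro a
    constructor
    · rintro ⟨h1 | h1, h2⟩
      · rw [h1] at h2
        exact absurd h2 hmn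
      · exact ⟨h1, (hlk a h1).1 h2⟩
    · rintro ⟨h1, h2⟩
      exact ⟨Or.inr h1, (hlk a h1).2 h2⟩
  have hsusp := bb_susp (G := G') (A := insert m A ∩ lk G' S) (s := s) (t := t)
    ((hmem s).2 ⟨h.hs, Or.inl rfl⟩) ((hmem t).2 ⟨h.ht, Or.inr (Or.inl rfl)⟩) h.hst.ne h.ns (by
      intro a hw hws hwt
      obtain ⟨ha, h1⟩ := (hmem a).1 hw
      rcases h1 with h1 | h1 | h1
      · exact absurd h1 hws
      · exact absurd h1 hwt
      · rw [h.cc s h.hs a ha, h.cc t h.ht a ha]
        refine ⟨⟨(hTs a h1).symm, fun h3 => ?_⟩, ⟨(hTt a h1).symm, fun h3 => ?_⟩⟩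
        · rw [Sym2.eq_iff] at h3
          rcases h3 with ⟨-, h3⟩ | ⟨-, h3⟩
          · exact hwt h3
          · exact hws h3
        · rw [Sym2.eq_iff] at h3
          rcases h3 with ⟨-, h3⟩ | ⟨-, h3⟩
          · exact hwt h3
          · exact hws h3)
  have hset : (insert m A ∩ lk G' S) \ {s, t} = A ∩ lk G T := by
    ext a
    constructor
    · rintro ⟨h1, h2⟩
      obtain ⟨ha, h3⟩ := (hmem a).1 h1
      rcases h3 with h3 | h3 | h3
      · exact absurd (Or.inl h3) h2
      · exact absurd (Or.inr h3) h2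
      · exact ⟨ha, h3⟩
    · rintro ⟨ha, h1⟩
      refine ⟨(hmem a).2 ⟨ha, Or.inr (Or.inr h1)⟩, ?_⟩
      rintro (h2 | h2)
      · exact (hTs a h1).ne h2
      · exact (hTt a h1).ne h2
  refine ⟨hsusp.1, fun i => ?_⟩
  rw [hsusp.2 i, hset]
  refine bb_congr (fun u hu v hv => ?_) i
  rw [h.cc u hu.1 v hv.1]
  refine ⟨fun h => h.1, fun h => ⟨h, fun h3 => ?_⟩⟩
  rw [Sym2.eq_iff] at h3
  rcases h3 with ⟨h3, -⟩ | ⟨h3, -⟩
  · exact (hTs u hu.2).ne h3
  · exact (hTt u hu.2).ne h3

/-- away from the edge -/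
theorem caseB2 (hc : G.IsClique (S : Set V)) (hSA : (S : Set V) ⊆ A) (hnb : ¬ (s ∈ S ∧ t ∈ S))
    (hM : ¬ ∀ u ∈ S, Md G s t u) (i : ℕ) :
    bb G' (insert m A ∩ lk G' S) i = bb G (A ∩ lk G S) i := by
  classical
  have hz : m ∉ S := fun hz => h.hm (hSA hz)
  have hSA' : (S : Set V) ⊆ insert m A := hSA.trans (Set.subset_insert _ _)
  have hset : insert m A ∩ lk G' S = A ∩ lk G S := by
    ext a
    constructor
    · rintro ⟨h1 | h1, h2⟩
      · rw [h1] at h2
        exact absurd ((lk_m h hSA').1 h2).2 hM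
      · refine ⟨h1, fun u hu => ?_⟩
        exact (((lk_a h hSA' h1).1 h2).1 u (Finset.mem_erase.2 ⟨fun e => hz (e ▸ hu), hu⟩)).1
    · rintro ⟨h1, h2⟩
      refine ⟨Or.inr h1, (lk_a h hSA' h1).2 ⟨fun u hu => ?_, fun h3 => absurd h3 hz⟩⟩
      have hu := Finset.mem_of_mem_erase hu
      refine ⟨h2 u hu, fun h3 => ?_⟩
      rw [Sym2.eq_iff] at h3
      apply hM
      rcases h3 with ⟨h3, h4⟩ | ⟨h3, h4⟩
      · intro u' hu'
        by_cases h5 : u' = t
        · exact Or.inr (Or.inl h5)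
        · refine Or.inr (Or.inr ⟨?_, ?_⟩)
          · rw [← h3]
            exact h2 u' hu'
          · rw [← h4]
            exact hc hu hu' (by rw [h4]; exact fun e => h5 e.symm)
      · intro u' hu'
        by_cases h5 : u' = s
        · exact Or.inl h5
        · refine Or.inr (Or.inr ⟨?_, ?_⟩)
          · rw [← h4]
            exact hc hu hu' (by rw [h4]; exact fun e => h5 e.symm)
          · rw [← h3]
            exact h2 u' hu'
  rw [hset]
  refine bb_congr (fun u hu v hv => ?_) i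
  rw [h.cc u hu.1 v hv.1]
  refine ⟨fun h => h.1, fun h4 => ⟨h4, fun h3 => ?_⟩⟩
  rw [Sym2.eq_iff] at h3
  apply hM
  intro w hw
  refine Or.inr (Or.inr ?_)
  rcases h3 with ⟨h3, h4⟩ | ⟨h3, h4⟩
  · rw [← h3, ← h4]
    exact ⟨hu.2 w hw, hv.2 w hw⟩
  · rw [← h3, ← h4]
    exact ⟨hv.2 w hw, hu.2 w hw⟩

/-- one end -/
theorem caseB1a (hSA : (S : Set V) ⊆ A) (hM : ∀ u ∈ S, Md G s t u) (hs : s ∈ S) (ht : t ∉ S) (i : ℕ) :
    bb G' (insert m A ∩ lk G' S) i = bb G (A ∩ lk G S) i := by
  classical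
  have hz : m ∉ S := fun hz => h.hm (hSA hz)
  have hSA' : (S : Set V) ⊆ insert m A := hSA.trans (Set.subset_insert _ _)
  have htl : t ∈ lk G S := by
    intro u hu
    rcases hM u hu with h1 | h1 | h1
    · rw [h1]
      exact h.hst.symm
    · exact absurd (h1 ▸ hu) ht
    · exact h1.2
  have hsm : s ≠ m := fun e => h.hm (e ▸ h.hs)
  have htm : t ≠ m := fun e => h.hm (e ▸ h.ht)
  have hset : insert m A ∩ lk G' S = insert m ((A ∩ lk G S) \ {t}) := by
    ext a
    constructor
    · rintro ⟨h1 | h1, h2⟩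
      · exact Or.inl h1
      · right
        have h3 := (lk_a h hSA' h1).1 h2
        refine ⟨⟨h1, fun u hu => (h3.1 u (Finset.mem_erase.2 ⟨fun e => hz (e ▸ hu), hu⟩)).1⟩,
          fun h4 => ?_⟩
        have h4 : a = t := h4
        exact (h3.1 s (Finset.mem_erase.2 ⟨hsm, hs⟩)).2 (by rw [h4, Sym2.eq_swap])
    · rintro (h1 | ⟨⟨h1, h2⟩, h3⟩)
      · rw [h1]
        exact ⟨Or.inl rfl, (lk_m h hSA').2 ⟨hz, hM⟩⟩
      · refine ⟨Or.inr h1, (lk_a h hSA' h1).2 ⟨fun u hu => ?_, fun h4 => absurd h4 hz⟩⟩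
        refine ⟨h2 u (Finset.mem_of_mem_erase hu), fun h4 => ?_⟩
        rw [Sym2.eq_iff] at h4
        rcases h4 with ⟨h4, -⟩ | ⟨h4, -⟩
        · exact (h2 s hs).ne h4
        · exact h3 h4
  have hsl : s ∉ lk G S := fun h1 => G.loopless.irrefl _ (h1 s hs)
  have hmX : m ∉ A ∩ lk G S := fun h1 => h.hm h1.1
  have e1 : bb G' (insert m ((A ∩ lk G S) \ {t})) i =
      bb (gg G' s t) (insert m ((A ∩ lk G S) \ {t})) i := by
    refine bb_congr (fun u hu v hv => ?_) i
    rw [← gg_del h, SimpleGraph.deleteEdges_adj, Set.mem_singleton_iff, gg_del h]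
    refine ⟨fun h => h.1, fun h => ⟨h, fun h3 => ?_⟩⟩
    have key : t ∉ insert m ((A ∩ lk G S) \ {t}) := by
      rintro (h | h)
      · exact htm h
      · exact h.2 rfl
    rw [Sym2.eq_iff] at h3
    rcases h3 with ⟨-, h3⟩ | ⟨h3, -⟩
    · exact key (h3 ▸ hv)
    · exact key (h3 ▸ hu)
  have e2 : bb (gg G' s t) (insert t (insert m ((A ∩ lk G S) \ {t}))) i =
      bb (gg G' s t) (insert m ((A ∩ lk G S) \ {t})) i := by
    refine bb_dom (u := m) ?_ (Or.inl rfl) ((gg_mc h h.ht).2 (Or.inr (Or.inl rfl))).symm ?_ i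
    · rintro (h | h)
      · exact htm h
      · exact h.2 rfl
    · rintro w (hw | ⟨⟨hwA, hw⟩, hwt⟩) h1 h2
      · exact absurd hw h2
      · rw [gg_cc h h.ht hwA] at h1
        rw [gg_mc h hwA]
        exact Or.inr (Or.inr ⟨(hw s hs).symm, h1⟩)
  have e3 : insert t (insert m ((A ∩ lk G S) \ {t})) = insert m (A ∩ lk G S) := by
    have h0 : t ∈ A ∩ lk G S := ⟨h.ht, htl⟩
    rw [Set.insert_comm, Set.insert_sdiff_singleton, Set.insert_eq_of_mem h0]
  have e4 : bb (gg G' s t) (insert m (A ∩ lk G S)) i = bb (gg G' s t) (A ∩ lk G S) i := by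
    refine bb_dom (u := t) hmX ⟨h.ht, htl⟩ ((gg_mc h h.ht).2 (Or.inr (Or.inl rfl))) ?_ i
    rintro w ⟨hwA, hw⟩ h1 h2
    rw [gg_mc h hwA] at h1
    rw [gg_cc h h.ht hwA]
    rcases h1 with h1 | h1 | h1
    · exact absurd (h1 ▸ hw) hsl
    · exact absurd h1 h2
    · exact h1.2
  rw [hset, e1, ← e2, e3, e4]
  exact bb_congr (fun u hu v hv => gg_cc h hu.1 hv.1) i

/-- no end -/
theorem caseB1c (hSA : (S : Set V) ⊆ A) (hM : ∀ u ∈ S, Md G s t u) (hs : s ∉ S) (ht : t ∉ S) (i : ℕ) :
    bb G' (insert m A ∩ lk G' S) i = bb G (A ∩ lk G S) i := by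
  classical
  have hz : m ∉ S := fun hz => h.hm (hSA hz)
  have hSA' : (S : Set V) ⊆ insert m A := hSA.trans (Set.subset_insert _ _)
  have hM' : ∀ u ∈ S, G.Adj s u ∧ G.Adj t u := by
    intro u hu
    rcases hM u hu with h1 | h1 | h1
    · exact absurd (h1 ▸ hu) hs
    · exact absurd (h1 ▸ hu) ht
    · exact h1
  have hsl : s ∈ lk G S := fun u hu => (hM' u hu).1
  have htl : t ∈ lk G S := fun u hu => (hM' u hu).2
  have hmX : m ∉ A ∩ lk G S := fun h1 => h.hm h1.1
  have hset : insert m A ∩ lk G' S = insert m (A ∩ lk G S) := by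
    ext a
    constructor
    · rintro ⟨h1 | h1, h2⟩
      · exact Or.inl h1
      · right
        have h3 := (lk_a h hSA' h1).1 h2
        exact ⟨h1, fun u hu => (h3.1 u (Finset.mem_erase.2 ⟨fun e => hz (e ▸ hu), hu⟩)).1⟩
    · rintro (h1 | ⟨h1, h2⟩)
      · rw [h1]
        exact ⟨Or.inl rfl, (lk_m h hSA').2 ⟨hz, hM⟩⟩
      · refine ⟨Or.inr h1, (lk_a h hSA' h1).2 ⟨fun u hu => ?_, fun h4 => absurd h4 hz⟩⟩
        have hu := Finset.mem_of_mem_erase hu
        refine ⟨h2 u hu, fun h4 => ?_⟩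
        rw [Sym2.eq_iff] at h4
        rcases h4 with ⟨-, h4⟩ | ⟨-, h4⟩
        · exact ht (h4 ▸ hu)
        · exact hs (h4 ▸ hu)
  have e1 : bb G' (insert m (A ∩ lk G S)) i = bb (gg G' s t) (insert m (A ∩ lk G S)) i := by
    have e0 := bb_del (G := gg G' s t) (A := insert m (A ∩ lk G S))
      (s := s) (t := t) (Or.inr ⟨h.hs, hsl⟩) (Or.inr ⟨h.ht, htl⟩)
      ((gg_cc h h.hs h.ht).2 h.hst) (bb_cone (u := m) ⟨Or.inl rfl, ((gg_mc h h.hs).2 (Or.inl rfl)).symm,
        ((gg_mc h h.ht).2 (Or.inr (Or.inl rfl))).symm⟩ (by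
        rintro w ⟨hw | ⟨ha, hw⟩, h1, h2⟩ h3
        · exact absurd hw h3
        · have h1' : (gg G' s t).Adj s w := h1
          have h2' : (gg G' s t).Adj t w := h2
          rw [gg_cc h h.hs ha] at h1'
          rw [gg_cc h h.ht ha] at h2'
          rw [gg_mc h ha]
          exact Or.inr (Or.inr ⟨h1', h2'⟩))) i
    rwa [gg_del h] at e0
  have e2 : bb (gg G' s t) (insert m (A ∩ lk G S)) i = bb (gg G' s t) (A ∩ lk G S) i := by
    refine bb_dom (u := s) hmX ⟨h.hs, hsl⟩ ((gg_mc h h.hs).2 (Or.inl rfl)) ?_ i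
    rintro w ⟨hwA, hw⟩ h1 h2
    rw [gg_mc h hwA] at h1
    rw [gg_cc h h.hs hwA]
    rcases h1 with h1 | h1 | h1
    · exact absurd h1 h2
    · rw [h1]
      exact h.hst
    · exact h1.1
  rw [hset, e1, e2]
  exact bb_congr (fun u hu v hv => gg_cc h hu.1 hv.1) i

/-- cliques of `G` in `A` which do not contain the edge -/
theorem caseB (hc : G.IsClique (S : Set V)) (hSA : (S : Set V) ⊆ A) (hnb : ¬ (s ∈ S ∧ t ∈ S)) (i : ℕ) :
    bb G' (insert m A ∩ lk G' S) i = bb G (A ∩ lk G S) i := by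
  by_cases hM : ∀ u ∈ S, Md G s t u
  · by_cases hs : s ∈ S
    · exact caseB1a h hSA hM hs (fun ht => hnb ⟨hs, ht⟩) i
    · by_cases ht : t ∈ S
      · exact caseB1a h.symm hSA (fun u hu => (md_comm u).1 (hM u hu)) ht hs i
      · exact caseB1c h hSA hM hs ht i
  · exact caseB2 h hc hSA hnb hM i

end cases

/-- An edge subdivision of a flag homology sphere is a homology sphere. -/
theorem Sd.fwd (h : Sd G G' A m s t) (hG : HS k G A) : HS k G' (insert m A) := by
  classical
  intro S hS hSA i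
  have hbA : ∀ u ∈ S, u ≠ m → u ∈ A := fun u hu hum => (hSA hu).resolve_left hum
  have hsm : s ≠ m := fun e => h.hm (e ▸ h.hs)
  have htm : t ≠ m := fun e => h.hm (e ▸ h.ht)
  have hnb : ¬ (s ∈ S ∧ t ∈ S) := fun h1 => h.ns (hS h1.1 h1.2 h.hst.ne)
  by_cases hz : m ∈ S
  · have hM : ∀ u ∈ S.erase m, Md G s t u := fun u hu =>
      (h.mc u (hbA u (Finset.mem_of_mem_erase hu) (Finset.ne_of_mem_erase hu))).1
        (hS hz (Finset.mem_of_mem_erase hu) (Finset.ne_of_mem_erase hu).symm)
    have hcl : G.IsClique ((S.erase m : Finset V) : Set V) := by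
      intro a ha b hb hab
      have ha := Finset.mem_erase.1 (Finset.mem_coe.1 ha)
      have hb := Finset.mem_erase.1 (Finset.mem_coe.1 hb)
      exact ((h.cc a (hbA a ha.2 ha.1) b (hbA b hb.2 hb.1)).1 (hS ha.2 hb.2 hab)).1
    have hcE : ((S.erase m : Finset V) : Set V) ⊆ A := fun a ha =>
      hbA a (Finset.mem_of_mem_erase (Finset.mem_coe.1 ha)) (Finset.ne_of_mem_erase (Finset.mem_coe.1 ha))
    have hcard : (S.erase m).card + 1 = S.card := Finset.card_erase_add_one hz
    have one : ∀ {s t : V}, Sd G G' A m s t → s ∈ S → t ∉ S → s ≠ m →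
        (∀ u ∈ S.erase m, Md G s t u) → bb G' (insert m A ∩ lk G' S) i = if i + S.card = k then 1 else 0 := by
      intro s t h hs ht hsm hM
      rw [caseA1 h hSA hz hs, hG]
      · have : (insert t (S.erase m)).card = S.card := by
          rw [Finset.card_insert_of_notMem (fun h1 => ht (Finset.mem_of_mem_erase h1)), hcard]
        rw [this]
      · rw [Finset.coe_insert, SimpleGraph.isClique_insert]
        refine ⟨hcl, fun b hb hbt => ?_⟩
        rcases hM b hb with h1 | h1 | h1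
        · rw [h1]
          exact h.hst.symm
        · exact absurd h1.symm hbt
        · exact h1.2
      · rw [Finset.coe_insert]
        exact Set.insert_subset h.ht hcE
    by_cases hs : s ∈ S
    · exact one h hs (fun ht => hnb ⟨hs, ht⟩) hsm hM
    · by_cases ht : t ∈ S
      · exact one h.symm ht hs htm (fun u hu => (md_comm u).1 (hM u hu))
      · have hM' : ∀ u ∈ S.erase m, G.Adj s u ∧ G.Adj t u := by
          intro u hu
          rcases hM u hu with h1 | h1 | h1
          · exact absurd (h1 ▸ Finset.mem_of_mem_erase hu) hs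
          · exact absurd (h1 ▸ Finset.mem_of_mem_erase hu) ht
          · exact h1
        have hs' : s ∉ insert t (S.erase m) := by
          rw [Finset.mem_insert, not_or]
          exact ⟨h.hst.ne, fun h1 => hs (Finset.mem_of_mem_erase h1)⟩
        have hTc : G.IsClique ((insert s (insert t (S.erase m)) : Finset V) : Set V) := by
          rw [Finset.coe_insert, SimpleGraph.isClique_insert, Finset.coe_insert,
            SimpleGraph.isClique_insert]
          refine ⟨⟨hcl, fun b hb _ => (hM' b hb).2⟩, fun b hb _ => ?_⟩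
          rcases hb with rfl | hb
          · exact h.hst
          · exact (hM' b hb).1
        have hTA : ((insert s (insert t (S.erase m)) : Finset V) : Set V) ⊆ A := by
          rw [Finset.coe_insert, Finset.coe_insert]
          exact Set.insert_subset h.hs (Set.insert_subset h.ht hcE)
        have hcd : (insert s (insert t (S.erase m))).card = S.card + 1 := by
          rw [Finset.card_insert_of_notMem hs',
            Finset.card_insert_of_notMem (fun h1 => ht (Finset.mem_of_mem_erase h1)), hcard]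
        obtain ⟨e0, e1⟩ := caseA3 h hSA hz hs ht hM
        cases i with
        | zero =>
          have h1 := no_big hG hTc hTA
          rw [hcd] at h1
          rw [e0, if_neg (by omega)]
        | succ i =>
          rw [e1 i, hG _ hTc hTA i, hcd]
          congr 1
          rw [eq_iff_iff]
          omega
  · have hSA2 : (S : Set V) ⊆ A := fun a ha => hbA a ha (fun e => hz (e ▸ ha))
    have hc : G.IsClique (S : Set V) := by
      intro a ha b hb hab
      exact ((h.cc a (hSA2 ha) b (hSA2 hb)).1 (hS ha hb hab)).1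
    rw [caseB h hc hSA2 hnb i, hG S hc hSA2 i]

/-- The converse: an inverse edge subdivision of a flag homology sphere is a homology sphere. -/
theorem Sd.hs_back (h : Sd G G' A m s t) (hG : HS k G' (insert m A)) : HS k G A := by
  classical
  intro S hS hSA i
  have hmS : m ∉ S := fun h1 => h.hm (hSA h1)
  by_cases hst : s ∈ S ∧ t ∈ S
  · obtain ⟨hs, ht⟩ := hst
    set S' := insert m ((S.erase s).erase t) with hS'
    have hmE : m ∉ (S.erase s).erase t := fun h1 =>
      hmS (Finset.mem_of_mem_erase (Finset.mem_of_mem_erase h1))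
    have hE : ∀ u ∈ (S.erase s).erase t, G.Adj s u ∧ G.Adj t u := by
      intro u hu
      have h1 := Finset.mem_erase.1 hu
      have h2 := Finset.mem_erase.1 h1.2
      exact ⟨hS hs h2.2 h2.1.symm, hS ht h2.2 h1.1.symm⟩
    have hEA : ∀ u ∈ (S.erase s).erase t, u ∈ A := fun u hu =>
      hSA (Finset.mem_of_mem_erase (Finset.mem_of_mem_erase hu))
    have hns : s ∉ S' := by
      rw [hS', Finset.mem_insert, not_or]
      exact ⟨fun e => h.hm (e ▸ h.hs), fun h1 => absurd rfl (Finset.ne_of_mem_erase (Finset.mem_of_mem_erase h1))⟩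
    have hnt : t ∉ S' := by
      rw [hS', Finset.mem_insert, not_or]
      exact ⟨fun e => h.hm (e ▸ h.ht), fun h1 => absurd rfl (Finset.ne_of_mem_erase h1)⟩
    have hcl : G'.IsClique (S' : Set V) := by
      rw [hS', Finset.coe_insert, SimpleGraph.isClique_insert]
      refine ⟨fun a ha b hb hab => ?_, fun b hb _ => ?_⟩
      · rw [h.cc a (hEA a ha) b (hEA b hb)]
        have ha' := Finset.mem_of_mem_erase (Finset.mem_of_mem_erase (Finset.mem_coe.1 ha))
        have hb' := Finset.mem_of_mem_erase (Finset.mem_of_mem_erase (Finset.mem_coe.1 hb))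
        refine ⟨hS ha' hb' hab, fun h3 => ?_⟩
        rw [Sym2.eq_iff] at h3
        rcases h3 with ⟨h3, -⟩ | ⟨h3, -⟩
        · exact hns (h3 ▸ Finset.mem_insert_of_mem ha)
        · exact hnt (h3 ▸ Finset.mem_insert_of_mem ha)
      · exact (h.mc b (hEA b hb)).2 (Or.inr (Or.inr (hE b hb)))
    have hSA' : (S' : Set V) ⊆ insert m A := by
      rw [hS', Finset.coe_insert]
      exact Set.insert_subset_insert fun u hu => hEA u hu
    have herase : S'.erase m = (S.erase s).erase t := Finset.erase_insert hmE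
    have hback : insert s (insert t (S'.erase m)) = S := by
      rw [herase, Finset.insert_erase (Finset.mem_erase.2 ⟨h.hst.ne.symm, ht⟩),
        Finset.insert_erase hs]
    obtain ⟨-, e1⟩ := caseA3 h hSA' (Finset.mem_insert_self _ _) hns hnt (by
      rw [herase]
      exact fun u hu => Or.inr (Or.inr (hE u hu)))
    have h1 := e1 i
    rw [hback] at h1
    rw [← h1, hG S' hcl hSA' (i + 1)]
    have h2 : S'.card + 1 = S.card := by
      rw [hS', Finset.card_insert_of_notMem hmE,
        Finset.card_erase_add_one (Finset.mem_erase.2 ⟨h.hst.ne.symm, ht⟩)]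
      exact Finset.card_erase_add_one hs
    congr 1
    rw [eq_iff_iff]
    omega
  · rw [← caseB h hS hSA hst i]
    refine hG S (fun a ha b hb hab => ?_) (hSA.trans (Set.subset_insert _ _)) i
    rw [h.cc a (hSA ha) b (hSA hb)]
    refine ⟨hS ha hb hab, fun h3 => ?_⟩
    rw [Sym2.eq_iff] at h3
    rcases h3 with ⟨h3, h4⟩ | ⟨h3, h4⟩
    · exact hst ⟨h3 ▸ ha, h4 ▸ hb⟩
    · exact hst ⟨h4 ▸ hb, h3 ▸ ha⟩

end sd

/-- suspensions -/
theorem hs_susp {G : SimpleGraph V} {A : Set V} {s t : V} {k : ℕ} (hs : s ∉ A) (ht : t ∉ A)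
    (hst : s ≠ t) (hn : ¬ G.Adj s t) (hsA : ∀ a ∈ A, G.Adj s a) (htA : ∀ a ∈ A, G.Adj t a)
    (hG : HS k G A) : HS (k + 1) G (insert s (insert t A)) := by
  classical
  intro S hS hSA i
  have one : ∀ {s t : V}, s ∉ A → t ∉ A → s ≠ t → ¬ G.Adj s t → (∀ a ∈ A, G.Adj s a) →
      (∀ a ∈ A, G.Adj t a) → (S : Set V) ⊆ insert s (insert t A) → s ∈ S →
      bb G (insert s (insert t A) ∩ lk G S) i = if i + S.card = k + 1 then 1 else 0 := by
    intro s t hs ht hst hn hsA htA hSA hsS
    have htS : t ∉ S := fun h => hn (hS hsS h hst)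
    have hSE : ((S.erase s : Finset V) : Set V) ⊆ A := by
      intro a ha
      have ha := Finset.mem_erase.1 (Finset.mem_coe.1 ha)
      rcases hSA ha.2 with h1 | h1 | h1
      · exact absurd h1 ha.1
      · exact absurd (h1 ▸ ha.2) htS
      · exact h1
    have hset : insert s (insert t A) ∩ lk G S = A ∩ lk G (S.erase s) := by
      ext a
      constructor
      · rintro ⟨h1, h2⟩
        have h3 := h2 s hsS
        refine ⟨?_, fun u hu => h2 u (Finset.mem_of_mem_erase hu)⟩
        rcases h1 with h1 | h1 | h1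
        · rw [h1] at h3
          exact absurd h3 (G.loopless.irrefl _)
        · rw [h1] at h3
          exact absurd h3.symm hn
        · exact h1
      · rintro ⟨h1, h2⟩
        refine ⟨Or.inr (Or.inr h1), fun u hu => ?_⟩
        by_cases hus : u = s
        · rw [hus]
          exact (hsA a h1).symm
        · exact h2 u (Finset.mem_erase.2 ⟨hus, hu⟩)
    rw [hset, hG _ (hS.subset (by exact_mod_cast Finset.erase_subset s S)) hSE i]
    have := Finset.card_erase_add_one hsS
    congr 1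
    rw [eq_iff_iff]
    omega
  by_cases hsS : s ∈ S
  · exact one hs ht hst hn hsA htA hSA hsS
  · by_cases htS : t ∈ S
    · rw [Set.insert_comm]
      rw [Set.insert_comm] at hSA
      exact one ht hs hst.symm (fun h => hn h.symm) htA hsA hSA htS
    · have hSA' : (S : Set V) ⊆ A := by
        intro a ha
        rcases hSA ha with h1 | h1 | h1
        · exact absurd (h1 ▸ ha) hsS
        · exact absurd (h1 ▸ ha) htS
        · exact h1
      have hsusp := bb_susp (G := G) (A := insert s (insert t A) ∩ lk G S) (s := s) (t := t)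
        ⟨Or.inl rfl, fun u hu => hsA u (hSA' hu)⟩ ⟨Or.inr (Or.inl rfl), fun u hu => htA u (hSA' hu)⟩
        hst hn (by
          rintro w ⟨h1 | h1 | h1, h2⟩ h3 h4
          · exact absurd h1 h3
          · exact absurd h1 h4
          · exact ⟨hsA w h1, htA w h1⟩)
      have hset : (insert s (insert t A) ∩ lk G S) \ {s, t} = A ∩ lk G S := by
        ext a
        constructor
        · rintro ⟨⟨h1 | h1 | h1, h2⟩, h3⟩
          · exact absurd (Or.inl h1) h3
          · exact absurd (Or.inr h1) h3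
          · exact ⟨h1, h2⟩
        · rintro ⟨h1, h2⟩
          refine ⟨⟨Or.inr (Or.inr h1), h2⟩, ?_⟩
          rintro (h3 | h3)
          · exact hs (h3 ▸ h1)
          · exact ht (h3 ▸ h1)
      cases i with
      | zero =>
        have := no_big hG hS hSA'
        rw [hsusp.1, if_neg (by omega)]
      | succ i =>
        rw [hsusp.2 i, hset, hG S hS hSA' i]
        congr 1
        rw [eq_iff_iff]
        omega

theorem mem_KK_id {G : SimpleGraph V} {A : Set V} {i : ℕ} {c : Finset V → ℝ} :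
    c ∈ KK G (fun _ => (- LinearMap.id : ℝ →ₗ[ℝ] ℝ)) A ∅ i ↔
      ∀ T : Finset V, ¬ (G.IsClique (T : Set V) ∧ (T : Set V) ⊆ A ∧ T.card = i) → c T = 0 := by
  rw [mem_KK]
  exact and_iff_left (fun T t _ => rfl)

theorem bb_empty (G : SimpleGraph V) (i : ℕ) : bb G (∅ : Set V) i = if i = 0 then 1 else 0 := by
  classical
  have hK : ∀ i, i ≠ 0 → KK G (fun _ => (- LinearMap.id : ℝ →ₗ[ℝ] ℝ)) (∅ : Set V) ∅ i = ⊥ := by
    intro i hi
    rw [eq_bot_iff]
    intro c hc
    rw [Submodule.mem_bot]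
    funext T
    refine mem_KK_id.mp hc T ?_
    rintro ⟨_, h2, h3⟩
    have : T = ∅ := by
      rw [← Finset.coe_eq_empty]
      exact Set.subset_empty_iff.mp h2
    rw [this, Finset.card_empty] at h3
    exact hi h3.symm
  split_ifs with hi
  · subst hi
    have hB : BB G (fun _ => (- LinearMap.id : ℝ →ₗ[ℝ] ℝ)) (∅ : Set V) ∅ 0 = ⊥ := by
      unfold BB
      rw [hK 1 one_ne_zero, Submodule.map_bot]
    have hZ : ZZ G (fun _ => (- LinearMap.id : ℝ →ₗ[ℝ] ℝ)) (∅ : Set V) ∅ 0 =
        Submodule.span ℝ {fun T => if T = ∅ then 1 else 0} := by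
      refine le_antisymm ?_ ?_
      · rintro c ⟨hc, _⟩
        rw [Submodule.mem_span_singleton]
        refine ⟨c ∅, ?_⟩
        funext T
        simp only [Pi.smul_apply, smul_eq_mul]
        split_ifs with hT
        · rw [hT, mul_one]
        · rw [mul_zero]
          symm
          refine mem_KK_id.mp hc T ?_
          rintro ⟨_, _, h3⟩
          exact hT (Finset.card_eq_zero.mp h3)
      · rw [Submodule.span_singleton_le_iff_mem]
        refine ⟨mem_KK_id.mpr fun T hT => ?_, ?_⟩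
        · rw [if_neg]
          rintro rfl
          exact hT ⟨by simp, by simp, by simp⟩
        · show bd ℝ _ = 0
          funext T
          rw [bd_apply]
          refine Finset.sum_eq_zero fun v _ => ?_
          rw [if_neg (Finset.insert_ne_empty v T), smul_zero]
    unfold bb beta
    rw [hB, hZ, finrank_bot, Nat.sub_zero, finrank_span_singleton]
    intro h
    have := congrFun h ∅
    simp at this
  · unfold bb beta
    have hZ : ZZ G (fun _ => (- LinearMap.id : ℝ →ₗ[ℝ] ℝ)) (∅ : Set V) ∅ i = ⊥ := by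
      rw [eq_bot_iff, ← hK i hi]
      exact inf_le_left
    rw [hZ, finrank_bot, Nat.zero_sub]

/-- the empty sphere -/
theorem hs_empty (G : SimpleGraph V) : HS 0 G ∅ := by
  classical
  intro S hS hSA i
  have hS0 : S = ∅ := by
    rw [Finset.eq_empty_iff_forall_notMem]
    exact fun x hx => hSA hx
  subst hS0
  rw [Set.empty_inter, Finset.card_empty, add_zero]
  exact bb_empty G i

end Pool.Agent.Run7.h308.LT.Mv
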