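import Pool.Agent.Run7.h308.LT.Mv
import Pool.Agent.N496.LT.E2

/-!
# Embeddings of flag complexes in spheres under edge subdivisions and inverse edge subdivisions
-/

set_option autoImplicit false
set_option linter.unusedSectionVars false

noncomputable section

namespace Pool.Agent.Run7.h308.LT.Mv

open Pool.Agent.R782.Bal

variable {V : Type} [Fintype V]

/-- The geometric realization of the flag complex of the graph induced by `G` on `A`. -/
def ReA (G : SimpleGraph V) (A : Set V) : Set (V → ℝ) :=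
  {x | (∀ v, 0 ≤ x v) ∧ ∑ v, x v = 1 ∧ G.IsClique {v | x v ≠ 0} ∧ {v | x v ≠ 0} ⊆ A}

theorem reA_univ (G : SimpleGraph V) : ReA G Set.univ = Rea G := by
  ext x
  unfold ReA Rea
  simp only [Set.mem_setOf_eq, Set.subset_univ, and_true, finsum_eq_sum_of_fintype]

/-- The flag complex of `G` on `A` is embedded in the unit sphere of the `k`-dimensional euclidean space. -/
def EmA (k : ℕ) (G : SimpleGraph V) (A : Set V) : Prop :=
  ∃ f : (V → ℝ) → EuclideanSpace ℝ (Fin k), ContinuousOn f (ReA G A) ∧ (∀ x ∈ ReA G A, ‖f x‖ = 1) ∧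
    Set.InjOn f (ReA G A)

theorem EmA.of_map {V' : Type} [Fintype V'] {k : ℕ} {G : SimpleGraph V} {G' : SimpleGraph V'} {A : Set V}
    {A' : Set V'} (h : EmA k G A) (φ : (V' → ℝ) → (V → ℝ)) (hc : Continuous φ) (hm : ∀ x ∈ ReA G' A', φ x ∈ ReA G A)
    (hi : Set.InjOn φ (ReA G' A')) : EmA k G' A' := by
  obtain ⟨f, h1, h2, h3⟩ := h
  exact ⟨f ∘ φ, h1.comp hc.continuousOn hm, fun x hx => h2 _ (hm x hx), fun x hx y hy hxy =>
    hi hx hy (h3 (hm x hx) (hm y hy) hxy)⟩

theorem EmA.congr {k : ℕ} {G G' : SimpleGraph V} {A : Set V} (h : EmA k G A)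
    (he : ∀ u ∈ A, ∀ v ∈ A, G.Adj u v ↔ G'.Adj u v) : EmA k G' A := by
  refine h.of_map id continuous_id ?_ (Set.injOn_id _)
  rintro x ⟨h1, h2, h3, h4⟩
  exact ⟨h1, h2, fun u hu v hv huv => (he u (h4 hu) v (h4 hv)).2 (h3 hu hv huv), h4⟩

theorem HS.congr [LinearOrder V] {k : ℕ} {G G' : SimpleGraph V} {A : Set V} (h : HS k G A)
    (he : ∀ u ∈ A, ∀ v ∈ A, G.Adj u v ↔ G'.Adj u v) : HS k G' A := by
  intro S hS hSA i
  have hset : A ∩ Pool.Agent.W907.SM.lk G' S = A ∩ Pool.Agent.W907.SM.lk G S := by
    ext a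
    constructor
    · rintro ⟨h1, h2⟩
      exact ⟨h1, fun u hu => (he a h1 u (hSA hu)).2 (h2 u hu)⟩
    · rintro ⟨h1, h2⟩
      exact ⟨h1, fun u hu => (he a h1 u (hSA hu)).1 (h2 u hu)⟩
  rw [hset, ← h S (fun u hu v hv huv => (he u (hSA hu) v (hSA hv)).2 (hS hu hv huv)) hSA i]
  exact Pool.Agent.N496.LT.E1P.bb_congr (fun u hu v hv => (he u hu.1 v hv.1).symm) i

section move

variable [DecidableEq V]

/-- the linear map: the new vertex goes to the midpoint of `s t` -/
def phi (m s t : V) (x : V → ℝ) (v : V) : ℝ :=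
  if v = m then 0 else x v + if v = s ∨ v = t then x m / 2 else 0

/-- its inverse -/
def psi (m s t : V) (x : V → ℝ) (v : V) : ℝ :=
  if v = m then 2 * min (x s) (x t) else x v - if v = s ∨ v = t then min (x s) (x t) else 0

theorem phi_cont (m s t : V) : Continuous (phi m s t) := by
  refine continuous_pi fun v => ?_
  unfold phi
  by_cases h0 : v = m
  · simp only [if_pos h0]
    fun_prop
  · simp only [if_neg h0]
    by_cases h : v = s ∨ v = t
    · simp only [if_pos h]
      fun_prop
    · simp only [if_neg h]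
      fun_prop

theorem psi_cont (m s t : V) : Continuous (psi m s t) := by
  refine continuous_pi fun v => ?_
  unfold psi
  by_cases h0 : v = m
  · simp only [if_pos h0]
    fun_prop
  · simp only [if_neg h0]
    by_cases h : v = s ∨ v = t
    · simp only [if_pos h]
      fun_prop
    · simp only [if_neg h]
      fun_prop

theorem sum_pair_ite {s t : V} (hst : s ≠ t) (c : ℝ) : ∑ v, (if v = s ∨ v = t then c else 0) = 2 * c := by
  rw [← Finset.sum_filter]
  have h : (Finset.univ.filter fun v : V => v = s ∨ v = t) = {s, t} := by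
    ext v
    simp
  rw [h, Finset.sum_pair hst]
  ring

theorem phi_eq {m s t : V} (hsm : s ≠ m) (htm : t ≠ m) (x : V → ℝ) (v : V) :
    phi m s t x v = x v - (if v = m then x m else 0) + if v = s ∨ v = t then x m / 2 else 0 := by
  unfold phi
  by_cases h : v = m
  · rw [if_pos h, if_pos h, if_neg, h]
    · ring
    · rw [h]
      rintro (h | h)
      · exact hsm h.symm
      · exact htm h.symm
  · rw [if_neg h, if_neg h]
    ring

theorem psi_eq {m s t : V} (hsm : s ≠ m) (htm : t ≠ m) {x : V → ℝ} (hx : x m = 0) (v : V) :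
    psi m s t x v = x v + (if v = m then 2 * min (x s) (x t) else 0) -
      if v = s ∨ v = t then min (x s) (x t) else 0 := by
  unfold psi
  by_cases h : v = m
  · rw [if_pos h, if_pos h, if_neg, h, hx]
    · ring
    · rw [h]
      rintro (h | h)
      · exact hsm h.symm
      · exact htm h.symm
  · rw [if_neg h, if_neg h]
    ring

theorem phi_sum {m s t : V} (hsm : s ≠ m) (htm : t ≠ m) (hst : s ≠ t) (x : V → ℝ) :
    ∑ v, phi m s t x v = ∑ v, x v := by
  simp only [phi_eq hsm htm]
  rw [Finset.sum_add_distrib, Finset.sum_sub_distrib, sum_pair_ite hst, Finset.sum_ite_eq']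
  simp only [Finset.mem_univ, if_true]
  ring

theorem psi_sum {m s t : V} (hsm : s ≠ m) (htm : t ≠ m) (hst : s ≠ t) {x : V → ℝ} (hx : x m = 0) :
    ∑ v, psi m s t x v = ∑ v, x v := by
  simp only [psi_eq hsm htm hx]
  rw [Finset.sum_sub_distrib, Finset.sum_add_distrib, sum_pair_ite hst, Finset.sum_ite_eq']
  simp

variable {G G' : SimpleGraph V} {A : Set V} {m s t : V}

theorem phi_mem (h : Sd G G' A m s t) {x : V → ℝ} (hx : x ∈ ReA G' (insert m A)) :
    phi m s t x ∈ ReA G A := by
  have hsm : s ≠ m := fun e => h.hm (e ▸ h.hs)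
  have htm : t ≠ m := fun e => h.hm (e ▸ h.ht)
  obtain ⟨h0, h1, h2, h3⟩ := hx
  have hne : ∀ v, phi m s t x v ≠ 0 → v ≠ m ∧ (x v ≠ 0 ∨ ((v = s ∨ v = t) ∧ x m ≠ 0)) := by
    intro v hv
    have hvm : v ≠ m := by
      intro e
      apply hv
      unfold phi
      rw [if_pos e]
    refine ⟨hvm, ?_⟩
    by_contra hcon
    push Not at hcon
    apply hv
    unfold phi
    rw [if_neg hvm, hcon.1]
    by_cases h1 : v = s ∨ v = t
    · rw [if_pos h1, hcon.2 h1]
      norm_num
    · rw [if_neg h1]
      norm_num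
  have hA : ∀ v, phi m s t x v ≠ 0 → v ∈ A := by
    intro v hv
    obtain ⟨hvm, h4 | ⟨h4 | h4, -⟩⟩ := hne v hv
    · exact (h3 h4).resolve_left hvm
    · exact h4 ▸ h.hs
    · exact h4 ▸ h.ht
  refine ⟨fun v => ?_, ?_, ?_, fun v hv => hA v hv⟩
  · unfold phi
    have := h0 v
    have := h0 m
    split_ifs <;> linarith
  · rw [phi_sum hsm htm h.hst.ne, h1]
  · have hcom : ∀ u ∈ A, x u ≠ 0 → x m ≠ 0 → u = s ∨ u = t ∨ (G.Adj s u ∧ G.Adj t u) := by
      intro u huA hu hl
      exact (h.mc u huA).1 (h2 hl hu (fun e => h.hm (by rw [e]; exact huA)))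
    intro u hu v hv huv
    have huA := hA u hu
    have hvA := hA v hv
    obtain ⟨-, hu⟩ := hne u hu
    obtain ⟨-, hv⟩ := hne v hv
    rcases hu with hu1 | ⟨hu1, hl⟩
    · rcases hv with hv1 | ⟨hv1, hl⟩
      · exact ((h.cc u huA v hvA).1 (h2 hu1 hv1 huv)).1
      · rcases hcom u huA hu1 hl with h4 | h4 | ⟨h3, h4⟩
        · rcases hv1 with h' | h'
          · exact absurd (h4.trans h'.symm) huv
          · rw [h4, h']; exact h.hst
        · rcases hv1 with h' | h'
          · rw [h4, h']; exact h.hst.symm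
          · exact absurd (h4.trans h'.symm) huv
        · rcases hv1 with h' | h'
          · rw [h']; exact h3.symm
          · rw [h']; exact h4.symm
    · rcases hv with hv1 | ⟨hv1, -⟩
      · rcases hcom v hvA hv1 hl with h4 | h4 | ⟨h3, h4⟩
        · rcases hu1 with h' | h'
          · exact absurd (h'.trans h4.symm) huv
          · rw [h4, h']; exact h.hst.symm
        · rcases hu1 with h' | h'
          · rw [h4, h']; exact h.hst
          · exact absurd (h'.trans h4.symm) huv
        · rcases hu1 with h' | h'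
          · rw [h']; exact h3
          · rw [h']; exact h4
      · rcases hu1 with h4 | h4 <;> rcases hv1 with h' | h'
        · exact absurd (h4.trans h'.symm) huv
        · rw [h4, h']; exact h.hst
        · rw [h4, h']; exact h.hst.symm
        · exact absurd (h4.trans h'.symm) huv

theorem phi_inj (h : Sd G G' A m s t) : Set.InjOn (phi m s t) (ReA G' (insert m A)) := by
  have hsm : s ≠ m := fun e => h.hm (e ▸ h.hs)
  have htm : t ≠ m := fun e => h.hm (e ▸ h.ht)
  have st_zero : ∀ x ∈ ReA G' (insert m A), x s = 0 ∨ x t = 0 := by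
    intro x hx
    by_contra hcon
    push Not at hcon
    exact h.ns (hx.2.2.1 hcon.1 hcon.2 h.hst.ne)
  intro x hx y hy hxy
  have hs := congrFun hxy s
  have ht := congrFun hxy t
  unfold phi at hs ht
  rw [if_neg hsm, if_neg hsm, if_pos (Or.inl rfl), if_pos (Or.inl rfl)] at hs
  rw [if_neg htm, if_neg htm, if_pos (Or.inr rfl), if_pos (Or.inr rfl)] at ht
  have x1 := hx.1 s
  have x2 := hx.1 t
  have y1 := hy.1 s
  have y2 := hy.1 t
  have key : x m = y m := by
    rcases st_zero x hx with a | a <;> rcases st_zero y hy with b | b <;> linarith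
  funext v
  by_cases hv : v = m
  · rw [hv, key]
  · have h4 := congrFun hxy v
    unfold phi at h4
    rw [key, if_neg hv, if_neg hv] at h4
    linarith

theorem psi_mem (h : Sd G G' A m s t) {x : V → ℝ} (hx : x ∈ ReA G A) :
    psi m s t x ∈ ReA G' (insert m A) := by
  have hsm : s ≠ m := fun e => h.hm (e ▸ h.hs)
  have htm : t ≠ m := fun e => h.hm (e ▸ h.ht)
  obtain ⟨h0, h1, h2, h3⟩ := hx
  have hxm : x m = 0 := by
    by_contra hcon
    exact h.hm (h3 hcon)
  have hne : ∀ v, v ≠ m → psi m s t x v ≠ 0 → x v ≠ 0 := by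
    intro v hvm hv hxv
    apply hv
    unfold psi
    rw [if_neg hvm, hxv]
    by_cases h4 : v = s ∨ v = t
    · rw [if_pos h4]
      rcases h4 with h4 | h4
      · rw [h4] at hxv
        rw [hxv, min_eq_left (h0 t), sub_zero]
      · rw [h4] at hxv
        rw [hxv, min_eq_right (h0 s), sub_zero]
    · rw [if_neg h4, sub_zero]
  have hnem : psi m s t x m ≠ 0 → x s ≠ 0 ∧ x t ≠ 0 := by
    intro hv
    unfold psi at hv
    rw [if_pos rfl] at hv
    constructor
    · intro h4
      apply hv
      rw [h4, min_eq_left (h0 t), mul_zero]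
    · intro h4
      apply hv
      rw [h4, min_eq_right (h0 s), mul_zero]
  have hA : ∀ v, v ≠ m → psi m s t x v ≠ 0 → v ∈ A := fun v hvm hv => h3 (hne v hvm hv)
  refine ⟨fun v => ?_, ?_, ?_, fun v hv => ?_⟩
  · unfold psi
    have := h0 v
    have h5 := h0 s
    have h6 := h0 t
    split_ifs with h7 h8
    · have := le_min h5 h6
      linarith
    · rcases h8 with h8 | h8
      · rw [h8]
        have := min_le_left (x s) (x t)
        linarith
      · rw [h8]
        have := min_le_right (x s) (x t)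
        linarith
    · linarith
  · rw [psi_sum hsm htm h.hst.ne hxm, h1]
  · have hmv : ∀ v, v ≠ m → psi m s t x m ≠ 0 → psi m s t x v ≠ 0 → G'.Adj m v := by
      intro v hvm hm hv
      obtain ⟨hs0, ht0⟩ := hnem hm
      rw [h.mc v (hA v hvm hv)]
      by_cases h4 : v = s
      · exact Or.inl h4
      by_cases h5 : v = t
      · exact Or.inr (Or.inl h5)
      have hv0 := hne v hvm hv
      exact Or.inr (Or.inr ⟨h2 hs0 hv0 (Ne.symm h4), h2 ht0 hv0 (Ne.symm h5)⟩)
    intro u hu v hv huv
    by_cases hum : u = m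
    · rw [hum] at hu huv ⊢
      exact hmv v huv.symm hu hv
    · by_cases hvm : v = m
      · rw [hvm] at hv ⊢
        exact (hmv u hum hv hu).symm
      · rw [h.cc u (hA u hum hu) v (hA v hvm hv)]
        refine ⟨h2 (hne u hum hu) (hne v hvm hv) huv, fun h4 => ?_⟩
        have key : psi m s t x s = 0 ∨ psi m s t x t = 0 := by
          unfold psi
          rw [if_neg hsm, if_neg htm, if_pos (Or.inl rfl), if_pos (Or.inr rfl)]
          rcases le_total (x s) (x t) with h5 | h5
          · left
            rw [min_eq_left h5, sub_self]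
          · right
            rw [min_eq_right h5, sub_self]
        rw [Sym2.eq_iff] at h4
        rcases h4 with ⟨h4, h5⟩ | ⟨h4, h5⟩
        · rw [h4] at hu
          rw [h5] at hv
          exact key.elim hu hv
        · rw [h4] at hu
          rw [h5] at hv
          exact key.elim hv hu
  · by_cases hvm : v = m
    · exact Or.inl hvm
    · exact Or.inr (hA v hvm hv)

theorem psi_inj (h : Sd G G' A m s t) : Set.InjOn (psi m s t) (ReA G A) := by
  have hsm : s ≠ m := fun e => h.hm (e ▸ h.hs)
  have htm : t ≠ m := fun e => h.hm (e ▸ h.ht)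
  intro x hx y hy hxy
  have hxm : x m = 0 := by
    by_contra hcon
    exact h.hm (hx.2.2.2 hcon)
  have hym : y m = 0 := by
    by_contra hcon
    exact h.hm (hy.2.2.2 hcon)
  have hm := congrFun hxy m
  unfold psi at hm
  rw [if_pos rfl, if_pos rfl] at hm
  have hm' : min (x s) (x t) = min (y s) (y t) := by linarith
  funext v
  by_cases hv : v = m
  · rw [hv, hxm, hym]
  · have h4 := congrFun hxy v
    unfold psi at h4
    rw [if_neg hv, if_neg hv, hm'] at h4
    linarith

/-- the embedding of the subdivision -/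
theorem Sd.em (h : Sd G G' A m s t) {k : ℕ} (he : EmA k G A) : EmA k G' (insert m A) :=
  he.of_map (phi m s t) (phi_cont m s t) (fun _ hx => phi_mem h hx) (phi_inj h)

/-- the embedding of the inverse subdivision -/
theorem Sd.em_back (h : Sd G G' A m s t) {k : ℕ} (he : EmA k G' (insert m A)) : EmA k G A :=
  he.of_map (psi m s t) (psi_cont m s t) (fun _ hx => psi_mem h hx) (psi_inj h)

end move

end Pool.Agent.Run7.h308.LT.Mv
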